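import Pool.Agent.J6H29.ST.Mono

/-!
# ST: the bound for the differences of the traces
-/

set_option autoImplicit false
set_option maxHeartbeats 400000

namespace Pool.Agent.J6H29.ST

open NumberField Filter Topology IsDedekindDomain Pool.Agent.W401.Cheb Pool.Agent.R401.Sup
open Pool.Agent.W569.FM Pool.Agent.R401.Img Pool.Agent.R401.Eng Pool.Agent.R401.Sup2
open Pool.Agent.R401.Sup3 Pool.Agent.R401.Tr1 Pool.Agent.R401.Tr3 Module Pool.Agent.R401.Tr5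

variable {K : Type} [Field K] [NumberField K] {n m : ℕ}

theorem exists_prime (v : HeightOneSpectrum (𝓞 K)) : ∃ ℓ : ℕ, ℓ.Prime ∧ (ℓ : 𝓞 K) ∉ v.asIdeal := by
  by_contra hcon
  push Not at hcon
  have h2 := hcon 2 Nat.prime_two
  have h3 := hcon 3 Nat.prime_three
  apply v.isPrime.ne_top
  rw [Ideal.eq_top_iff_one]
  have h4 := v.asIdeal.sub_mem h3 h2
  have h5 : ((3 : ℕ) : 𝓞 K) - ((2 : ℕ) : 𝓞 K) = 1 := by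
    push_cast
    ring
  rwa [h5] at h4

theorem bound_a (hPu : S_Pur)
    (V : ∀ (ℓ : ℕ) [Fact ℓ.Prime], GK K →* GL (Fin n) ℚ_[ℓ])
    (W : ∀ (ℓ : ℕ) [Fact ℓ.Prime], GK K →* GL (Fin m) ℚ_[ℓ])
    (B : Set (HeightOneSpectrum (𝓞 K))) (a : HeightOneSpectrum (𝓞 K) → ℚ) (w : ℤ)
    (htr : ∀ (ℓ : ℕ) [Fact ℓ.Prime], ∀ v, v ∉ B → (ℓ : 𝓞 K) ∉ v.asIdeal → ∀ g, IsFrob v g →
      (mt (V ℓ) g⁻¹).trace - (mt (W ℓ) g⁻¹).trace = (a v : ℚ_[ℓ]))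
    (hpur : ∀ v, v ∉ B → ∃ h h' : Polynomial ℚ,
      (∀ z : ℂ, (h.map (Rat.castHom ℂ)).IsRoot z → ‖z‖ ^ 2 = (Ideal.absNorm v.asIdeal : ℝ) ^ w) ∧
      (∀ z : ℂ, (h'.map (Rat.castHom ℂ)).IsRoot z → ‖z‖ ^ 2 = (Ideal.absNorm v.asIdeal : ℝ) ^ w) ∧
      ∀ (ℓ : ℕ) [Fact ℓ.Prime], (ℓ : 𝓞 K) ∉ v.asIdeal → ∀ g, IsFrob v g →
        (mt (V ℓ) g⁻¹).charpoly = h.map (Rat.castHom ℚ_[ℓ]) ∧
        (mt (W ℓ) g⁻¹).charpoly = h'.map (Rat.castHom ℚ_[ℓ])) :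
    ∀ v, v ∉ B → (a v : ℝ) ^ 2 ≤
      (2 * ((n : ℝ) ^ 2 + (m : ℝ) ^ 2)) * (Ideal.absNorm v.asIdeal : ℝ) ^ w := by
  intro v hv
  obtain ⟨ℓ, hℓ, hℓv⟩ := exists_prime v
  have : Fact ℓ.Prime := ⟨hℓ⟩
  obtain ⟨γ, hγ⟩ := exists_isFrob v
  obtain ⟨h, h', h1, h2, h3⟩ := hpur v hv
  obtain ⟨e⟩ := Pool.Agent.R401.Iso.exists_iso ℓ
  let e' : ℚ_[ℓ] →+* ℂ := (e : PadicAlgCl ℓ →+* ℂ).comp (algebraMap ℚ_[ℓ] (PadicAlgCl ℓ))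
  have hN0 : (0 : ℝ) < Ideal.absNorm v.asIdeal := by
    have := Nat.pos_of_ne_zero (fun h0 => v.ne_bot (Ideal.absNorm_eq_zero_iff.1 h0))
    exact_mod_cast this
  have h4 := (frT hPu (V ℓ) (W ℓ) (zpow_pos hN0 w) (h3 ℓ hℓv γ hγ).1 h1 (h3 ℓ hℓv γ hγ).2 h2 e').2 1
  rw [zpow_one, zpow_one, htr ℓ v hv hℓv γ hγ, map_ratCast] at h4
  have h5 : ‖((a v : ℚ) : ℂ)‖ ^ 2 = (a v : ℝ) ^ 2 := by
    rw [Complex.norm_ratCast, sq_abs]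
  rw [h5] at h4
  exact h4

end Pool.Agent.J6H29.ST
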