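import Pool.Agent.J6H29.ST.Star

/-!
# ST: even weights
-/

set_option autoImplicit false
set_option maxHeartbeats 400000

namespace Pool.Agent.J6H29.ST

open NumberField Filter Topology IsDedekindDomain Pool.Agent.W401.Cheb Pool.Agent.R401.Sup
open Pool.Agent.W569.FM Pool.Agent.R401.Img Pool.Agent.R401.Eng Pool.Agent.R401.Sup2
open Pool.Agent.R401.Sup3 Pool.Agent.R401.Tr1 Pool.Agent.R401.Tr3 Module Pool.Agent.R401.Tr5

section real

/-- bounded powers -/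
theorem eq_one_of_bdd {x a M : ℝ} (hx : 0 < x) (ha : 0 < a) (h : ∀ j : ℤ, a * x ^ j ≤ M) :
    x = 1 := by
  have key : ∀ y : ℝ, 0 < y → (∀ j : ℕ, a * y ^ j ≤ M) → y ≤ 1 := by
    intro y _ hy
    by_contra hcon
    rw [not_le] at hcon
    obtain ⟨j, hj⟩ := pow_unbounded_of_one_lt (M / a) hcon
    have h1 := hy j
    rw [div_lt_iff₀ ha] at hj
    linarith
  apply le_antisymm
  · exact key x hx fun j => by
      have := h j
      rwa [zpow_natCast] at this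
  · have h1 := key x⁻¹ (inv_pos.2 hx) fun j => by
      have := h (-(j : ℤ))
      rwa [zpow_neg, zpow_natCast, ← inv_pow] at this
    exact (inv_le_one₀ hx).1 h1

end real

section alg

variable {F : Type} [Field F] {G : Type} [Group G]

theorem c_zpow {H : Type} [Group H] (c : H →* F) (x : H) (j : ℤ) : c (x ^ j) = c x ^ j := by
  rcases j with j | j
  · rw [Int.ofNat_eq_natCast, zpow_natCast, zpow_natCast, map_pow]
  · rw [zpow_negSucc, zpow_negSucc, c_inv, map_pow]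

variable {T : G → F} (hcyc : ∀ x y, T (x * y) = T (y * x)) {H : Subgroup G}
  {κ : G → F} {u₁ x₁ : G} (hu₁ : u₁ ∈ H) (hx₁ : T (u₁ * x₁) ≠ T x₁)
  (hκ : ∀ u ∈ H, ∀ x, T (u * x) = T x + κ u * (T (u₁ * x) - T x))

include hu₁ hκ in
theorem D_u₁ (x : G) : T (u₁ * (u₁ * x)) - T (u₁ * x) =
    (1 + (κ (u₁ * u₁) - 2)) * (T (u₁ * x) - T x) := by
  have h1 := hκ _ (H.mul_mem hu₁ hu₁) x
  rw [mul_assoc] at h1
  rw [h1]
  ring

include hcyc hu₁ hκ in
theorem D_mul {u : G} (hu : u ∈ H) (x : G) : T (u₁ * (x * u)) - T (x * u) =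
    (1 + (κ (u₁ * u₁) - 2) * κ u) * (T (u₁ * x) - T x) := by
  have h1 := D_u₁ hu₁ hκ x
  have h2 := hκ u hu (u₁ * x)
  have h3 := hκ u hu x
  have h4 : T (u₁ * (x * u)) = T (u * (u₁ * x)) := by rw [← mul_assoc, hcyc]
  rw [h4, hcyc x u, h2, h3]
  linear_combination κ u * h1

include hcyc hu₁ hx₁ hκ in
theorem kap_mul {u u' : G} (hu : u ∈ H) (hu' : u' ∈ H) :
    κ (u * u') = κ u + κ u' + (κ (u₁ * u₁) - 2) * κ u * κ u' := by
  have hD : T (u₁ * x₁) - T x₁ ≠ 0 := sub_ne_zero.2 hx₁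
  have h1 := hκ _ (H.mul_mem hu hu') x₁
  have h2 : T (u * u' * x₁) = T (u' * (x₁ * u)) := by rw [mul_assoc, hcyc, mul_assoc]
  rw [h2, hκ u' hu', D_mul hcyc hu₁ hκ hu, hcyc x₁ u, hκ u hu] at h1
  refine mul_right_cancel₀ hD ?_
  linear_combination -h1

include hx₁ hκ in
theorem kap_one : κ 1 = 0 := by
  have hD : T (u₁ * x₁) - T x₁ ≠ 0 := sub_ne_zero.2 hx₁
  have h1 := hκ 1 H.one_mem x₁
  rw [one_mul] at h1
  have h2 : κ 1 * (T (u₁ * x₁) - T x₁) = 0 := by linear_combination -h1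
  exact (mul_eq_zero.1 h2).resolve_right hD

/-- the character -/
def psi (hcyc : ∀ x y, T (x * y) = T (y * x)) (hu₁ : u₁ ∈ H) (hx₁ : T (u₁ * x₁) ≠ T x₁)
    (hκ : ∀ u ∈ H, ∀ x, T (u * x) = T x + κ u * (T (u₁ * x) - T x)) : H →* F where
  toFun u := 1 + (κ (u₁ * u₁) - 2) * κ (u : G)
  map_one' := by
    change 1 + (κ (u₁ * u₁) - 2) * κ (1 : G) = 1
    rw [kap_one hx₁ hκ, mul_zero, add_zero]
  map_mul' := by
    intro u u'
    change 1 + (κ (u₁ * u₁) - 2) * κ ((u : G) * (u' : G)) = _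
    rw [kap_mul hcyc hu₁ hx₁ hκ u.2 u'.2]
    ring

include hcyc hu₁ hx₁ hκ in
theorem psi_ne {u : G} (hu : u ∈ H) : 1 + (κ (u₁ * u₁) - 2) * κ u ≠ 0 :=
  c_ne (psi hcyc hu₁ hx₁ hκ) ⟨u, hu⟩

include hcyc hu₁ hx₁ hκ in
theorem psi_zpow {u : G} (hu : u ∈ H) (j : ℤ) : 1 + (κ (u₁ * u₁) - 2) * κ (u ^ j) =
    (1 + (κ (u₁ * u₁) - 2) * κ u) ^ j := by
  have h1 := c_zpow (psi hcyc hu₁ hx₁ hκ) ⟨u, hu⟩ j
  exact h1

include hcyc hκ in
/-- equal values -/
theorem mem_Per_of {u u' : G} (hu : u ∈ H) (hu' : u' ∈ H) (h : κ u = κ u') : u⁻¹ * u' ∈ Per T := by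
  intro g
  have h1 : ∀ x, T (x * u) = T (x * u') := by
    intro x
    rw [hcyc, hcyc x u', hκ u hu, hκ u' hu', h]
  rw [← mul_assoc, ← h1, inv_mul_cancel_right]

include hcyc hx₁ hκ in
theorem mem_Per_of' {u : G} (hu : u ∈ H) (h : κ u = 0) : u ∈ Per T := by
  have h1 := mem_Per_of hcyc hκ H.one_mem hu (by rw [h, kap_one hx₁ hκ])
  rwa [inv_one, one_mul] at h1

include hcyc hu₁ hx₁ hκ in
/-- the end of the argument -/
theorem finish [CharZero F] (hHn : H.Normal) (hHf : H.FiniteIndex)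
    (h : ∀ u ∈ H, κ ((x₁ * u) ^ H.index * (x₁ * u) ^ H.index) = 0) : (Per T).FiniteIndex := by
  have hPn := Per_normal hcyc
  have hD : T (u₁ * x₁) - T x₁ ≠ 0 := sub_ne_zero.2 hx₁
  set f : ℕ := H.index with hf
  have hf0 : f ≠ 0 := hHf.index_ne_zero
  have hmem : ∀ g : G, g ^ f ∈ H := fun g => Subgroup.pow_index_mem H g
  have hconj : ∀ u ∈ H, κ (x₁ * u * x₁⁻¹) = κ u := by
    intro u hu
    have h1 := hκ _ (hHn.conj_mem u hu x₁) x₁
    rw [inv_mul_cancel_right, hcyc, hκ u hu] at h1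
    refine mul_right_cancel₀ hD ?_
    linear_combination -h1
  have hcomm : ∀ u ∈ H, Commute (x₁ : G ⧸ Per T) (u : G ⧸ Per T) := by
    intro u hu
    have h1 := mem_Per_of hcyc hκ (hHn.conj_mem u hu x₁) hu (hconj u hu)
    have h2 : ((x₁ * u * x₁⁻¹ : G) : G ⧸ Per T) = (u : G ⧸ Per T) := QuotientGroup.eq.2 h1
    rw [QuotientGroup.mk_mul, QuotientGroup.mk_mul, QuotientGroup.mk_inv,
      mul_inv_eq_iff_eq_mul] at h2
    exact h2
  have hpow : ∀ u ∈ H, ((x₁ : G ⧸ Per T) * (u : G ⧸ Per T)) ^ (f + f) = 1 := by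
    intro u hu
    rw [← QuotientGroup.mk_mul, ← QuotientGroup.mk_pow, QuotientGroup.eq_one_iff, pow_add]
    exact mem_Per_of' hcyc hx₁ hκ (H.mul_mem (hmem _) (hmem _)) (h u hu)
  have hpow' : ∀ u ∈ H, κ (u ^ (f + f)) = 0 := by
    intro u hu
    have h1 := hpow u hu
    rw [(hcomm u hu).mul_pow] at h1
    have h2 := hpow 1 H.one_mem
    rw [QuotientGroup.mk_one, mul_one] at h2
    rw [h2, one_mul, ← QuotientGroup.mk_pow, QuotientGroup.eq_one_iff] at h1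
    have h3 := hκ _ (H.pow_mem hu (f + f)) x₁
    rw [hcyc, mem_Per.1 h1] at h3
    have h4 : κ (u ^ (f + f)) * (T (u₁ * x₁) - T x₁) = 0 := by linear_combination -h3
    exact (mul_eq_zero.1 h4).resolve_right hD
  have hfin : {z : F | ∃ u ∈ H, κ u = z}.Finite := by
    by_cases hc : κ (u₁ * u₁) - 2 = 0
    · refine (Set.finite_singleton (0 : F)).subset ?_
      rintro _ ⟨u, hu, rfl⟩
      have h1 : ∀ j : ℕ, κ (u ^ j) = j * κ u := by
        intro j
        induction j with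
        | zero => rw [pow_zero, kap_one hx₁ hκ, Nat.cast_zero, zero_mul]
        | succ j ih =>
          rw [pow_succ, kap_mul hcyc hu₁ hx₁ hκ (H.pow_mem hu j) hu, ih, hc]
          push_cast
          ring
      have h2 := hpow' u hu
      rw [h1] at h2
      rcases mul_eq_zero.1 h2 with h3 | h3
      · exfalso
        have h4 : f + f = 0 := by exact_mod_cast h3
        omega
      · exact h3
    · have hN : 0 < f + f := by omega
      have h1 : {z : F | z ^ (f + f) = 1}.Finite := by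
        classical
        have h2 : {z : F | z ^ (f + f) = 1} ⊆
            ((Polynomial.X ^ (f + f) - Polynomial.C (1 : F)).roots.toFinset : Set F) := by
          intro z hz
          rw [Finset.mem_coe, Multiset.mem_toFinset, Polynomial.mem_roots
            (Polynomial.X_pow_sub_C_ne_zero hN 1)]
          simp only [Polynomial.IsRoot.def, Polynomial.eval_sub, Polynomial.eval_pow,
            Polynomial.eval_X, Polynomial.eval_C]
          exact sub_eq_zero.2 hz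
        exact (Finset.finite_toSet _).subset h2
      refine (h1.image fun z => (z - 1) / (κ (u₁ * u₁) - 2)).subset ?_
      rintro _ ⟨u, hu, rfl⟩
      refine ⟨1 + (κ (u₁ * u₁) - 2) * κ u, ?_, ?_⟩
      · have h2 := psi_zpow hcyc hu₁ hx₁ hκ hu ((f + f : ℕ) : ℤ)
        rw [zpow_natCast, zpow_natCast, hpow' u hu, mul_zero, add_zero] at h2
        exact h2.symm
      · change (1 + (κ (u₁ * u₁) - 2) * κ u - 1) / (κ (u₁ * u₁) - 2) = κ u
        field_simp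
        ring
  have hfq : Finite (H ⧸ (Per T).subgroupOf H) := by
    have : Finite {z : F | ∃ u ∈ H, κ u = z} := hfin.to_subtype
    refine Finite.of_injective (fun q : H ⧸ (Per T).subgroupOf H =>
      (⟨κ (q.out : G), q.out, q.out.2, rfl⟩ : {z : F | ∃ u ∈ H, κ u = z})) ?_
    intro q q' hqq
    have h1 : κ (q.out : G) = κ (q'.out : G) := congrArg Subtype.val hqq
    have h2 := mem_Per_of hcyc hκ q.out.2 q'.out.2 h1
    rw [← QuotientGroup.out_eq' q, ← QuotientGroup.out_eq' q', QuotientGroup.eq,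
      Subgroup.mem_subgroupOf]
    exact h2
  have h1 : ((Per T).subgroupOf H).index ≠ 0 := by
    have := Subgroup.finiteIndex_of_finite_quotient (H := (Per T).subgroupOf H)
    exact this.index_ne_zero
  have h2 : (Per T ⊓ H).FiniteIndex := by
    refine ⟨?_⟩
    rw [← Subgroup.relIndex_mul_index (inf_le_right : Per T ⊓ H ≤ H), Subgroup.inf_relIndex_right]
    exact mul_ne_zero h1 hf0
  exact Subgroup.finiteIndex_of_le (inf_le_left : Per T ⊓ H ≤ Per T)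

end alg

section frob

variable {K : Type} [Field K] [NumberField K]

/-- Frobenius elements in nonempty open subsets of cosets -/
theorem exists_frob_open {H : Subgroup (GK K)} (hHo : IsOpen (H : Set (GK K))) {O : Set (GK K)}
    (hO : IsOpen O) {x₁ u₀ : GK K} (hu₀ : u₀ ∈ H) (h₀ : x₁ * u₀ ∈ O)
    {S : Set (HeightOneSpectrum (𝓞 K))} (hS : S.Finite) :
    ∃ v, v ∉ S ∧ ∃ g, IsFrob v g ∧ g ∈ O ∧ ∃ u ∈ H, g = x₁ * u := by
  have h1 : (fun u => x₁ * u₀ * u) ⁻¹' O ∈ 𝓝 (1 : GK K) := by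
    apply (hO.preimage (continuous_const.mul continuous_id)).mem_nhds
    change x₁ * u₀ * 1 ∈ O
    rwa [mul_one]
  have h2 := Filter.inter_mem h1 (hHo.mem_nhds H.one_mem)
  obtain ⟨s, hs1, hs2, hs3⟩ := mem_nhds_iff.1 h2
  obtain ⟨U, hU⟩ := ProfiniteGrp.exist_openNormalSubgroup_sub_open_nhds_of_one hs2 hs3
  have hUn : (U : Subgroup (GK K)).Normal := U.isNormal'
  obtain ⟨v, hv, γ, hγ, hgγ⟩ := Pool.Agent.R401.Tr2.exists_frob (U : Subgroup (GK K)) U.isOpen' (x₁ * u₀) hS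
  have h3 := hs1 (hU hgγ)
  refine ⟨v, hv, γ, hγ, ?_, u₀ * ((x₁ * u₀)⁻¹ * γ), H.mul_mem hu₀ h3.2, ?_⟩
  · have h4 : x₁ * u₀ * ((x₁ * u₀)⁻¹ * γ) ∈ O := h3.1
    rwa [mul_inv_cancel_left] at h4
  · group

variable {F : Type} [Field F] [CharZero F] {G : Type} [Group G] {T : G → F}
  (hcyc : ∀ x y, T (x * y) = T (y * x)) {H : Subgroup G}
  {κ : G → F} {u₁ x₁ : G} (hu₁ : u₁ ∈ H) (hx₁ : T (u₁ * x₁) ≠ T x₁)
  (hκ : ∀ u ∈ H, ∀ x, T (u * x) = T x + κ u * (T (u₁ * x) - T x))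

include hcyc hu₁ hx₁ hκ in
/-- one Frobenius element -/
theorem frob_one (e : F →+* ℂ) {u : G} (hu : u ∈ H) {f : ℕ} (hz : (x₁ * u) ^ f ∈ H)
    (hrat : ∀ j : ℕ, ∃ r : ℚ, T ((x₁ * u) ^ j) = (r : F)) {M : ℝ}
    (hbd : ∀ j : ℤ, ‖e (T ((x₁ * u) ^ j))‖ ^ 2 ≤ M) :
    κ ((x₁ * u) ^ f * (x₁ * u) ^ f) = 0 := by
  set g : G := x₁ * u with hg
  set z : G := g ^ f with hzdef
  set c₀ : F := κ (u₁ * u₁) - 2 with hc₀
  have hD : T (u₁ * g) - T g ≠ 0 := by
    rw [hg, D_mul hcyc hu₁ hκ hu]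
    exact mul_ne_zero (psi_ne hcyc hu₁ hx₁ hκ hu) (sub_ne_zero.2 hx₁)
  have hzz : κ (z * z) = κ z * (1 + (1 + c₀ * κ z)) := by
    rw [kap_mul hcyc hu₁ hx₁ hκ hz hz]
    ring
  by_cases hκz : κ z = 0
  · rw [hzz, hκz, zero_mul]
  -- the bound
  have hM0 : ∀ j : ℤ, ‖e (T (g ^ j))‖ ≤ Real.sqrt M := fun j =>
    Real.le_sqrt_of_sq_le (hbd j)
  have hTz : ∀ j : ℤ, T (z ^ j * g) = T (g ^ ((f : ℤ) * j + 1)) := by
    intro j
    rw [zpow_add, zpow_one, zpow_mul, zpow_natCast]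
  have heD : 0 < ‖e (T (u₁ * g) - T g)‖ := norm_pos_iff.2 ((map_ne_zero e).2 hD)
  set M₁ : ℝ := 2 * Real.sqrt M / ‖e (T (u₁ * g) - T g)‖ with hM₁
  have hκb : ∀ j : ℤ, ‖e (κ (z ^ j))‖ ≤ M₁ := by
    intro j
    have h1 := hκ _ (H.zpow_mem hz j) g
    have h2 : κ (z ^ j) * (T (u₁ * g) - T g) = T (z ^ j * g) - T (g ^ (1 : ℤ)) := by
      rw [h1, zpow_one]
      ring
    rw [hM₁, le_div_iff₀ heD, ← norm_mul, ← map_mul, h2, hTz, map_sub]
    refine (norm_sub_le _ _).trans ?_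
    have h3 := hM0 ((f : ℤ) * j + 1)
    have h4 := hM0 1
    linarith
  have hstep : ∀ j : ℤ, κ (z ^ (j + 1)) - κ (z ^ j) = κ z * (1 + c₀ * κ z) ^ j := by
    intro j
    rw [← psi_zpow hcyc hu₁ hx₁ hκ hz j, zpow_add, zpow_one,
      kap_mul hcyc hu₁ hx₁ hκ (H.zpow_mem hz j) hz]
    ring
  have hψ0 : 1 + c₀ * κ z ≠ 0 := psi_ne hcyc hu₁ hx₁ hκ hz
  have hnorm : ‖e (1 + c₀ * κ z)‖ = 1 := by
    refine eq_one_of_bdd (a := ‖e (κ z)‖) (M := 2 * M₁) (norm_pos_iff.2 ((map_ne_zero e).2 hψ0))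
      (norm_pos_iff.2 ((map_ne_zero e).2 hκz)) fun j => ?_
    rw [← norm_zpow, ← map_zpow₀, ← norm_mul, ← map_mul, ← hstep, map_sub]
    refine (norm_sub_le _ _).trans ?_
    have h3 := hκb (j + 1)
    have h4 := hκb j
    linarith
  -- rationality
  obtain ⟨r₀, hr₀⟩ := hrat 1
  obtain ⟨r₁, hr₁⟩ := hrat (f * 1 + 1)
  obtain ⟨r₂, hr₂⟩ := hrat (f * 2 + 1)
  have h1 : κ z * (T (u₁ * g) - T g) = ((r₁ - r₀ : ℚ) : F) := by
    have h2 := hκ z hz g
    rw [pow_add, pow_mul, pow_one, pow_one] at hr₁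
    rw [pow_one] at hr₀
    push_cast
    rw [← hr₁, ← hr₀]
    linear_combination -h2
  have h2 : κ (z * z) * (T (u₁ * g) - T g) = ((r₂ - r₀ : ℚ) : F) := by
    have h3 := hκ (z * z) (H.mul_mem hz hz) g
    rw [pow_add, pow_mul, pow_one, pow_two] at hr₂
    rw [pow_one] at hr₀
    push_cast
    rw [← hr₂, ← hr₀]
    linear_combination -h3
  have h3 : ((r₁ - r₀ : ℚ) : F) ≠ 0 := by
    rw [← h1]
    exact mul_ne_zero hκz hD
  have h4 : 1 + c₀ * κ z = (((r₂ - r₀) / (r₁ - r₀) - 1 : ℚ) : F) := by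
    rw [hzz] at h2
    have h5 : (1 + (1 + c₀ * κ z)) * ((r₁ - r₀ : ℚ) : F) = ((r₂ - r₀ : ℚ) : F) := by
      rw [← h1, ← h2]
      ring
    push_cast at h3 h5 ⊢
    field_simp
    linear_combination h5
  set r : ℚ := (r₂ - r₀) / (r₁ - r₀) - 1 with hr
  have h5 : r = 1 ∨ r = -1 := by
    rw [h4, map_ratCast] at hnorm
    have h6 : |(r : ℝ)| = 1 := by
      rw [← Complex.norm_ratCast]
      exact hnorm
    have h7 : |r| = 1 := by exact_mod_cast h6
    exact (abs_eq zero_le_one).1 h7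
  rcases h5 with h5 | h5
  · exfalso
    rw [h5, Rat.cast_one] at h4
    have h6 : c₀ * κ z = 0 := by linear_combination h4
    have h7 : c₀ = 0 := (mul_eq_zero.1 h6).resolve_right hκz
    have h8 : ∀ j : ℕ, κ (z ^ j) = j * κ z := by
      intro j
      induction j with
      | zero => rw [pow_zero, kap_one hx₁ hκ, Nat.cast_zero, zero_mul]
      | succ j ih =>
        rw [pow_succ, kap_mul hcyc hu₁ hx₁ hκ (H.pow_mem hz j) hz, ih, ← hc₀, h7]
        push_cast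
        ring
    have h9 : 0 < ‖e (κ z)‖ := norm_pos_iff.2 ((map_ne_zero e).2 hκz)
    obtain ⟨j, hj⟩ := exists_nat_gt (M₁ / ‖e (κ z)‖)
    have h10 := hκb (j : ℤ)
    rw [zpow_natCast, h8, map_mul, map_natCast, norm_mul, Complex.norm_natCast] at h10
    rw [div_lt_iff₀ h9] at hj
    linarith
  · rw [hzz, h4, h5]
    push_cast
    ring

end frob

section even

variable {K : Type} [Field K] [NumberField K] {ℓ : ℕ} [Fact ℓ.Prime]

/-- **Even weights.** -/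
theorem even {T : GK K → ℚ_[ℓ]} (hT : Continuous T) (hcyc : ∀ x y, T (x * y) = T (y * x))
    {H : Subgroup (GK K)} (hHn : H.Normal) (hHo : IsOpen (H : Set (GK K)))
    {κ : GK K → ℚ_[ℓ]} {u₁ x₁ : GK K} (hu₁ : u₁ ∈ H) (hx₁ : T (u₁ * x₁) ≠ T x₁)
    (hκ : ∀ u ∈ H, ∀ x, T (u * x) = T x + κ u * (T (u₁ * x) - T x))
    {S : Set (HeightOneSpectrum (𝓞 K))} (hS : S.Finite) (M : ℝ) (e : ℚ_[ℓ] →+* ℂ)
    (hfr : ∀ v, v ∉ S → ∀ g, IsFrob v g → (∀ j : ℕ, ∃ r : ℚ, T (g ^ j) = (r : ℚ_[ℓ])) ∧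
      ∀ j : ℤ, ‖e (T (g ^ j))‖ ^ 2 ≤ M) : (Per T).FiniteIndex := by
  have hfin : Finite (GK K ⧸ H) := Subgroup.quotient_finite_of_isOpen _ hHo
  have hHf : H.FiniteIndex := Subgroup.finiteIndex_of_finite_quotient
  have hD : T (u₁ * x₁) - T x₁ ≠ 0 := sub_ne_zero.2 hx₁
  refine finish hcyc hu₁ hx₁ hκ hHn hHf fun u hu => ?_
  have hmem : ∀ g : GK K, g ^ H.index ∈ H := fun g => Subgroup.pow_index_mem H g
  by_contra hcon
  set O : Set (GK K) := {g | T (g ^ H.index * g ^ H.index * x₁) ≠ T x₁} with hO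
  have hOo : IsOpen O := by
    have h1 : Continuous fun g : GK K => T (g ^ H.index * g ^ H.index * x₁) :=
      hT.comp (((continuous_pow _).mul (continuous_pow _)).mul continuous_const)
    exact isOpen_ne_fun h1 continuous_const
  have h0 : x₁ * u ∈ O := by
    intro h1
    apply hcon
    have h2 := hκ _ (H.mul_mem (hmem (x₁ * u)) (hmem (x₁ * u))) x₁
    rw [h1] at h2
    have h3 : κ ((x₁ * u) ^ H.index * (x₁ * u) ^ H.index) * (T (u₁ * x₁) - T x₁) = 0 := by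
      linear_combination -h2
    exact (mul_eq_zero.1 h3).resolve_right hD
  obtain ⟨v, hv, g, hg, hgO, u', hu', rfl⟩ := exists_frob_open hHo hOo hu h0 hS
  obtain ⟨h1, h2⟩ := hfr v hv _ hg
  have h3 := frob_one hcyc hu₁ hx₁ hκ e hu' (hmem (x₁ * u')) h1 h2
  apply hgO
  rw [hκ _ (H.mul_mem (hmem _) (hmem _)), h3, zero_mul, add_zero]

end even

end Pool.Agent.J6H29.ST
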