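import Pool.Agent.J6H29.ST.One
import Pool.Agent.R401.Iso

/-!
# ST: families
-/

set_option autoImplicit false
set_option maxHeartbeats 400000

namespace Pool.Agent.J6H29.ST

open NumberField Filter Topology IsDedekindDomain Pool.Agent.W401.Cheb Pool.Agent.R401.Sup
open Pool.Agent.W569.FM Pool.Agent.R401.Img Pool.Agent.R401.Eng Pool.Agent.R401.Sup2
open Pool.Agent.R401.Sup3 Pool.Agent.R401.Tr1 Pool.Agent.R401.Tr3 Module Pool.Agent.R401.Tr5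

variable {K : Type} [Field K] [NumberField K] {n m : ℕ}

theorem family (hMe : S_Meas) (hPu : S_Pur) (hGo : S_Good) (hOd : S_Odd)
    (V : ∀ (ℓ : ℕ) [Fact ℓ.Prime], GK K →* GL (Fin n) ℚ_[ℓ])
    (hV : ∀ (ℓ : ℕ) [Fact ℓ.Prime], Continuous (V ℓ))
    (W : ∀ (ℓ : ℕ) [Fact ℓ.Prime], GK K →* GL (Fin m) ℚ_[ℓ])
    (hW : ∀ (ℓ : ℕ) [Fact ℓ.Prime], Continuous (W ℓ))
    (B : Set (HeightOneSpectrum (𝓞 K))) (hB : B.Finite) (a : HeightOneSpectrum (𝓞 K) → ℚ) (w : ℤ)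
    (htr : ∀ (ℓ : ℕ) [Fact ℓ.Prime], ∀ v, v ∉ B → (ℓ : 𝓞 K) ∉ v.asIdeal → ∀ g, IsFrob v g →
      (mt (V ℓ) g⁻¹).trace - (mt (W ℓ) g⁻¹).trace = (a v : ℚ_[ℓ]))
    (hpur : ∀ v, v ∉ B → ∃ h h' : Polynomial ℚ,
      (∀ z : ℂ, (h.map (Rat.castHom ℂ)).IsRoot z → ‖z‖ ^ 2 = (Ideal.absNorm v.asIdeal : ℝ) ^ w) ∧
      (∀ z : ℂ, (h'.map (Rat.castHom ℂ)).IsRoot z → ‖z‖ ^ 2 = (Ideal.absNorm v.asIdeal : ℝ) ^ w) ∧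
      ∀ (ℓ : ℕ) [Fact ℓ.Prime], (ℓ : 𝓞 K) ∉ v.asIdeal → ∀ g, IsFrob v g →
        (mt (V ℓ) g⁻¹).charpoly = h.map (Rat.castHom ℚ_[ℓ]) ∧
        (mt (W ℓ) g⁻¹).charpoly = h'.map (Rat.castHom ℚ_[ℓ]))
    (C : ℝ) (hC : ∀ v, v ∉ B → (a v : ℝ) ^ 2 ≤ C * (Ideal.absNorm v.asIdeal : ℝ) ^ w) (θ : ℝ)
    (hθ : θ * (n ^ 2 + m ^ 2) < 2) {d : ℕ} (hd : 0 < d)
    (hP : ∃ᶠ N : ℕ in atTop, dens (fun v : HeightOneSpectrum (𝓞 K) =>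
      ¬ ∃ c : ℤ, (d : ℚ) * a v ^ 2 = (Ideal.absNorm v.asIdeal : ℚ) ^ w * c) N ≤ θ) :
    ∃ (u : ℤ) (φ : GK K → ℚ) (U : Subgroup (GK K)), (w = 2 * u ∨ ∀ y, φ y = 0) ∧ U.Normal ∧
      IsOpen (U : Set (GK K)) ∧ (∀ x ∈ U, ∀ y, φ (x * y) = φ y) ∧
      ∀ (ℓ : ℕ) [Fact ℓ.Prime] (y : GK K),
        cyc K ℓ ℚ_[ℓ] y ^ u * ((mt (V ℓ) y).trace - (mt (W ℓ) y).trace) = (φ y : ℚ_[ℓ]) := by
  classical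
  have hpur' : ∀ (ℓ : ℕ) [Fact ℓ.Prime], ∀ v, v ∉ B → (ℓ : 𝓞 K) ∉ v.asIdeal → ∀ g, IsFrob v g →
      ∃ h h' : Polynomial ℚ, (mt (V ℓ) g⁻¹).charpoly = h.map (Rat.castHom ℚ_[ℓ]) ∧
      (∀ z : ℂ, (h.map (Rat.castHom ℂ)).IsRoot z → ‖z‖ ^ 2 = (Ideal.absNorm v.asIdeal : ℝ) ^ w) ∧
      (mt (W ℓ) g⁻¹).charpoly = h'.map (Rat.castHom ℚ_[ℓ]) ∧
      (∀ z : ℂ, (h'.map (Rat.castHom ℂ)).IsRoot z →
        ‖z‖ ^ 2 = (Ideal.absNorm v.asIdeal : ℝ) ^ w) := by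
    intro ℓ _ v hv hℓ g hg
    obtain ⟨h, h', h1, h2, h3⟩ := hpur v hv
    exact ⟨h, h', (h3 ℓ hℓ g hg).1, h1, (h3 ℓ hℓ g hg).2, h2⟩
  have hemb : ∀ (ℓ : ℕ) [Fact ℓ.Prime], Nonempty (ℚ_[ℓ] →+* ℂ) := by
    intro ℓ _
    obtain ⟨e⟩ := Pool.Agent.R401.Iso.exists_iso ℓ
    exact ⟨(e : PadicAlgCl ℓ →+* ℂ).comp (algebraMap ℚ_[ℓ] (PadicAlgCl ℓ))⟩
  by_cases hne : ∃ (ℓ : ℕ) (_ : Fact ℓ.Prime) (g : GK K),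
      (mt (V ℓ) g).trace - (mt (W ℓ) g).trace ≠ 0
  swap
  · push Not at hne
    refine ⟨0, fun _ => 0, ⊤, Or.inr fun _ => rfl, inferInstance, isOpen_univ,
      fun _ _ _ => rfl, fun ℓ hℓ y => ?_⟩
    rw [hne ℓ hℓ y, mul_zero, Rat.cast_zero]
  have h2p : Fact (Nat.Prime 2) := ⟨Nat.prime_two⟩
  obtain ⟨u, hu⟩ : ∃ u : ℤ, w = 2 * u := by
    obtain ⟨ℓ, hℓ, g, hg⟩ := hne
    obtain ⟨⟨u, hu⟩, -⟩ := one hMe hPu hGo hOd (V ℓ) (hV ℓ) (W ℓ) (hW ℓ) hg B hB a w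
      (fun v hv hℓv g hg => htr ℓ v hv hℓv g hg) (hpur' ℓ) (hemb ℓ).some C hC θ hθ hd hP
    exact ⟨u, hu⟩
  have hU : ∀ (ℓ : ℕ) [Fact ℓ.Prime], ∃ U : Subgroup (GK K), U.Normal ∧
      IsOpen (U : Set (GK K)) ∧ ∀ x ∈ U, ∀ y,
        cyc K ℓ ℚ_[ℓ] (x * y) ^ u * ((mt (V ℓ) (x * y)).trace - (mt (W ℓ) (x * y)).trace) =
        cyc K ℓ ℚ_[ℓ] y ^ u * ((mt (V ℓ) y).trace - (mt (W ℓ) y).trace) := by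
    intro ℓ _
    by_cases h0 : ∃ g, (mt (V ℓ) g).trace - (mt (W ℓ) g).trace ≠ 0
    · obtain ⟨g, hg⟩ := h0
      exact (one hMe hPu hGo hOd (V ℓ) (hV ℓ) (W ℓ) (hW ℓ) hg B hB a w
        (fun v hv hℓv g hg => htr ℓ v hv hℓv g hg) (hpur' ℓ) (hemb ℓ).some C hC θ hθ hd hP).2 u hu
    · push Not at h0
      refine ⟨⊤, inferInstance, isOpen_univ, fun x _ y => ?_⟩
      rw [h0, h0, mul_zero, mul_zero]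
  -- a common Frobenius element
  have hcommon : ∀ (ℓ : ℕ) [Fact ℓ.Prime] (y : GK K), ∃ r : ℚ,
      cyc K 2 ℚ_[2] y ^ u * ((mt (V 2) y).trace - (mt (W 2) y).trace) = (r : ℚ_[2]) ∧
      cyc K ℓ ℚ_[ℓ] y ^ u * ((mt (V ℓ) y).trace - (mt (W ℓ) y).trace) = (r : ℚ_[ℓ]) := by
    intro ℓ hℓ y
    obtain ⟨U₁, hU₁n, hU₁o, hU₁⟩ := hU 2
    obtain ⟨U₂, hU₂n, hU₂o, hU₂⟩ := hU ℓ
    have hn' : (U₁ ⊓ U₂).Normal := inferInstance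
    have ho' : IsOpen ((U₁ ⊓ U₂ : Subgroup (GK K)) : Set (GK K)) := by
      rw [Subgroup.coe_inf]
      exact hU₁o.inter hU₂o
    obtain ⟨v, hv, γ, hγ, hyγ⟩ := Pool.Agent.R401.Tr2.exists_frob (U₁ ⊓ U₂) ho' y⁻¹
      (S := B ∪ ({v | ((2 : ℕ) : 𝓞 K) ∈ v.asIdeal} ∪ {v | ((ℓ : ℕ) : 𝓞 K) ∈ v.asIdeal}))
      (hB.union ((Pool.Agent.W352.ChAbs.over_le 2 Nat.prime_two).1.union
        (Pool.Agent.W352.ChAbs.over_le ℓ (Fact.out : ℓ.Prime)).1))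
    rw [Set.mem_union, Set.mem_union, not_or, not_or] at hv
    rw [inv_inv] at hyγ
    have hy : y = (y * γ) * γ⁻¹ := by rw [mul_inv_cancel_right]
    have key : ∀ (ℓ' : ℕ) [Fact ℓ'.Prime], ((ℓ' : ℕ) : 𝓞 K) ∉ v.asIdeal →
        (∀ y', cyc K ℓ' ℚ_[ℓ'] ((y * γ) * y') ^ u *
          ((mt (V ℓ') ((y * γ) * y')).trace - (mt (W ℓ') ((y * γ) * y')).trace) =
          cyc K ℓ' ℚ_[ℓ'] y' ^ u * ((mt (V ℓ') y').trace - (mt (W ℓ') y').trace)) →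
        cyc K ℓ' ℚ_[ℓ'] y ^ u * ((mt (V ℓ') y).trace - (mt (W ℓ') y).trace) =
          (((Ideal.absNorm v.asIdeal : ℚ) ^ u)⁻¹ * a v : ℚ) := by
      intro ℓ' _ hℓ' h
      rw [hy, h, htr ℓ' v hv.1 hℓ' γ hγ, c_inv, cyc_frob ℓ' ℚ_[ℓ'] hℓ' hγ, inv_zpow]
      push_cast
      rfl
    refine ⟨((Ideal.absNorm v.asIdeal : ℚ) ^ u)⁻¹ * a v, ?_, ?_⟩
    · exact key 2 hv.2.1 fun y' => hU₁ _ hyγ.1 y'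
    · exact key ℓ hv.2.2 fun y' => hU₂ _ hyγ.2 y'
  have hφ : ∀ y : GK K, ∃ r : ℚ,
      cyc K 2 ℚ_[2] y ^ u * ((mt (V 2) y).trace - (mt (W 2) y).trace) = (r : ℚ_[2]) :=
    fun y => by
      obtain ⟨r, hr, -⟩ := hcommon 2 y
      exact ⟨r, hr⟩
  choose φ hφ using hφ
  obtain ⟨U, hUn, hUo, hU2⟩ := hU 2
  refine ⟨u, φ, U, Or.inl hu, hUn, hUo, ?_, ?_⟩
  · intro x hx y
    have h1 := hU2 x hx y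
    rw [hφ, hφ] at h1
    exact_mod_cast h1
  · intro ℓ hℓ y
    obtain ⟨r, hr1, hr2⟩ := hcommon ℓ y
    have h1 : φ y = r := by
      rw [hφ] at hr1
      exact_mod_cast hr1
    rw [hr2, h1]


end Pool.Agent.J6H29.ST
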