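import Pool.Agent.J6H29.ST.Stm

/-!
# ST: integrality at places of good reduction of the second family
-/

set_option autoImplicit false
set_option maxHeartbeats 400000

namespace Pool.Agent.J6H29.ST

open NumberField Filter Topology IsDedekindDomain Pool.Agent.W401.Cheb Pool.Agent.R401.Sup
open Pool.Agent.W569.FM Pool.Agent.R401.Img Pool.Agent.R401.Sup3 Pool.Agent.R401.Sup4
open Pool.Agent.R401.Tr3 Pool.Agent.R401.Tr4 Pool.Agent.R401.Tr5 Module Polynomial Matrix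
open Pool.Agent.R401.Tr8 Pool.Agent.R401.Tr9

variable {K : Type} [Field K] [NumberField K]

/-- **Integrality.** -/
theorem int_good (hInt : S_Int) {n m : ℕ} (V : ∀ (ℓ : ℕ) [Fact ℓ.Prime], GK K →* GL (Fin n) ℚ_[ℓ])
    (W : ∀ (ℓ : ℕ) [Fact ℓ.Prime], GK K →* GL (Fin m) ℚ_[ℓ]) (u : ℤ)
    (φ : GK K → ℚ) (U : Subgroup (GK K)) (hUn : U.Normal) (hUo : IsOpen (U : Set (GK K)))
    (hU : ∀ x ∈ U, ∀ y, φ (x * y) = φ y)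
    (hφ : ∀ (ℓ : ℕ) [Fact ℓ.Prime] (y : GK K),
      cyc K ℓ ℚ_[ℓ] y ^ u * ((mt (V ℓ) y).trace - (mt (W ℓ) y).trace) = (φ y : ℚ_[ℓ]))
    {w : ℤ} (hw : w = 2 * u ∨ ∀ y, φ y = 0) (hw0 : 0 ≤ w)
    {P : Ideal (OO K)} (hP : P.IsMaximal) {q : ℕ} (hq : 2 ≤ q) {σ : GK K} (hσ : FrobAt q P σ)
    (R : ℤ[X]) (hR : ∀ (ℓ : ℕ) [Fact ℓ.Prime], (ℓ : OO K) ∉ P →
      (mt (W ℓ) σ⁻¹).charpoly = R.map (Int.castRingHom ℚ_[ℓ]))
    (I : ∀ (ℓ : ℕ) [Fact ℓ.Prime], Submodule ℚ_[ℓ] (Fin n → ℚ_[ℓ]))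
    (hI : ∀ (ℓ : ℕ) [Fact ℓ.Prime] (x : Fin n → ℚ_[ℓ]),
      x ∈ I ℓ ↔ ∀ τ, InInertia P τ → mt (V ℓ) τ *ᵥ x = x) (f : ℚ[X])
    (hf : ∀ (ℓ : ℕ) [Fact ℓ.Prime], (ℓ : OO K) ∉ P →
      ∀ (r : ℕ) (b : Basis (Fin r) ℚ_[ℓ] (I ℓ)) (A : Matrix (Fin r) (Fin r) ℚ_[ℓ]),
        (∀ j, mt (V ℓ) σ⁻¹ *ᵥ (b j : Fin n → ℚ_[ℓ]) = ∑ i, A i j • (b i : Fin n → ℚ_[ℓ])) →
        A.charpolyRev = f.map (Rat.castHom ℚ_[ℓ])) :
    ∃ g : ℤ[X], f = g.map (Int.castRingHom ℚ) := by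
  classical
  obtain ⟨ℓ, hℓ, hℓP⟩ := Pool.Agent.R401.Tr6.exists_prime_not_mem hP
  have : Fact ℓ.Prime := ⟨hℓ⟩
  obtain ⟨r, b, A, hA⟩ := Pool.Agent.R401.Tr6.exists_basis (V ℓ) hq hσ (hI ℓ)
  have hfin : Finite (GK K ⧸ U) := Subgroup.quotient_finite_of_isOpen _ hUo
  have hfi : U.FiniteIndex := Subgroup.finiteIndex_of_finite_quotient
  have hM : 0 < U.index := Nat.pos_of_ne_zero hfi.index_ne_zero
  have hc := cyc_sigma (ℓ := ℓ) hP hσ hℓP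
  have hc0 : (q : ℚ_[ℓ]) ≠ 0 := by
    rw [← hc]
    exact c_ne _ _
  have htr : ∀ k : ℕ, (mt (V ℓ) σ⁻¹ ^ (U.index * k)).trace -
      (mt (W ℓ) σ⁻¹ ^ (U.index * k)).trace =
      (((q : ℚ_[ℓ]) ^ u) ^ U.index) ^ k * ((n : ℚ_[ℓ]) - m) := by
    intro k
    have h1 := hφ ℓ (σ⁻¹ ^ (U.index * k))
    have h2 : σ⁻¹ ^ (U.index * k) ∈ U := by
      rw [pow_mul]
      exact U.pow_mem (Subgroup.pow_index_mem U σ⁻¹) k
    have h3 : φ (σ⁻¹ ^ (U.index * k)) = φ 1 := by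
      rw [← mul_one (σ⁻¹ ^ (U.index * k)), hU _ h2]
    rw [h3, phi_one (V ℓ) (W ℓ) u φ (hφ ℓ), map_pow, c_inv, hc, ← zpow_natCast, _root_.zpow_comm,
      _root_.inv_zpow, _root_.inv_zpow, Pool.Agent.R401.Tr9.mt_pow,
      Pool.Agent.R401.Tr9.mt_pow] at h1
    rw [← h1, ← mul_assoc, ← pow_mul, zpow_natCast, mul_inv_cancel₀, one_mul]
    exact pow_ne_zero _ (zpow_ne_zero _ hc0)
  have hq' : ∃ q' : ℤ[X], q'.Monic ∧ aeval (mt (W ℓ) σ⁻¹) q' = 0 := by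
    refine ⟨R, ?_, ?_⟩
    · refine monic_of_injective (f := Int.castRingHom ℚ_[ℓ]) Int.cast_injective ?_
      rw [← hR ℓ hℓP]
      exact Matrix.charpoly_monic _
    · have h1 := Matrix.aeval_self_charpoly (mt (W ℓ) σ⁻¹)
      rw [hR ℓ hℓP, ← algebraMap_int_eq, Polynomial.aeval_map_algebraMap] at h1
      exact h1
  obtain ⟨D, hD⟩ : ∃ D : ℤ, ∀ k : ℕ, (mt (V ℓ) σ⁻¹ ^ (U.index * k)).trace -
      (mt (W ℓ) σ⁻¹ ^ (U.index * k)).trace = (D : ℚ_[ℓ]) ^ k * ((n : ℚ_[ℓ]) - m) := by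
    rcases hw with hw | hw
    · have hu0 : 0 ≤ u := by omega
      obtain ⟨u', rfl⟩ := Int.eq_ofNat_of_zero_le hu0
      refine ⟨((q : ℤ) ^ u') ^ U.index, fun k => ?_⟩
      rw [htr]
      push_cast
      rw [zpow_natCast]
    · refine ⟨1, fun k => ?_⟩
      have h1 : (n : ℚ_[ℓ]) - m = 0 := by
        rw [← phi_one (V ℓ) (W ℓ) u φ (hφ ℓ), hw, Rat.cast_zero]
      rw [htr, h1, mul_zero, mul_zero]
  obtain ⟨q'', hq'', hq0⟩ := hInt ℓ n m (mt (V ℓ) σ⁻¹) (mt (W ℓ) σ⁻¹) U.index hM D hD hq'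
  have h1 : ∀ k, f.coeff k ∈ Set.range (Int.castRingHom ℚ) := by
    intro k
    have h2 := coeff_charpoly_integral A q'' hq'' (aeval_eq_zero b hA q'' hq0)
    have h3 : IsIntegral ℤ (A.charpolyRev.coeff k) := by
      rw [← Matrix.reverse_charpoly, coeff_reverse]
      exact h2 _
    rw [hf ℓ hℓP r b A hA, coeff_map] at h3
    have h4 : Rat.castHom ℚ_[ℓ] (f.coeff k) = algebraMap ℚ ℚ_[ℓ] (f.coeff k) := by
      congr 1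
    rw [h4] at h3
    have h5 := (isIntegral_algebraMap_iff (algebraMap ℚ ℚ_[ℓ]).injective).1 h3
    obtain ⟨y, hy⟩ := IsIntegrallyClosed.isIntegral_iff.1 h5
    exact ⟨y, hy⟩
  obtain ⟨g, hg⟩ := (mem_lifts _).1 ((lifts_iff_coeff_lifts _).2 h1)
  exact ⟨g, hg.symm⟩

end Pool.Agent.J6H29.ST
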