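import Pool.Agent.J6H29.ST.StmZ
import Pool.Agent.J6H19.ST.Meas

/-!
# ST: positive measure, with translations and cosets
-/

set_option autoImplicit false
set_option maxHeartbeats 400000

namespace Pool.Agent.J6H29.ST

open NumberField Filter Topology IsDedekindDomain Pool.Agent.W401.Cheb MeasureTheory
open Pool.Agent.J6H19.ST

/-- a notion of positive measure, invariant under translations -/
def S_Meas3 : Prop := ∀ (K : Type) [Field K] [NumberField K],
  ∃ pos : Set (GK K) → Prop,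
    (∀ X Y : Set (GK K), X ⊆ Y → pos X → pos Y) ∧
    (∀ (ι : Type) (s : Finset ι) (X : ι → Set (GK K)), pos (⋃ i ∈ s, X i) → ∃ i ∈ s, pos (X i)) ∧
    (∀ X : Set (GK K), IsClosed X → pos X → ∀ H : Subgroup (GK K),
      (∀ y, y ∉ H → ¬ pos {g | g ∈ X ∧ y * g ∈ X}) → H.FiniteIndex) ∧
    (∀ (X : Set (GK K)) (y : GK K), pos X → pos {g | y * g ∈ X}) ∧
    (∀ Good : Set (GK K), IsClosed Good → (∀ g ∈ Good, ∀ x : GK K, x * g * x⁻¹ ∈ Good) → ∀ θ : ℝ,
      (∃ᶠ N : ℕ in atTop,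
        dens (fun v : HeightOneSpectrum (𝓞 K) => ∃ g, IsFrob v g ∧ g ∉ Good) N ≤ θ) →
      ∀ U : Subgroup (GK K), IsOpen (U : Set (GK K)) → θ * U.index < 1 →
        ∀ g₁ : GK K, pos {g | g₁⁻¹ * g ∈ U ∧ g ∈ Good})

theorem meas3 : S_Meas3 := by
  intro K _ _
  letI : MeasurableSpace (GK K) := borel (GK K)
  haveI : BorelSpace (GK K) := ⟨rfl⟩
  obtain ⟨μ, h1, h2, h3⟩ := exists_haar (G := GK K)
  refine ⟨fun X => μ X ≠ 0, ?_, ?_, ?_, ?_, ?_⟩
  · intro X Y hXY hX hY
    exact hX (measure_mono_null hXY hY)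
  · intro ι s X hX
    by_contra hcon
    push Not at hcon
    exact hX ((measure_biUnion_null_iff s.countable_toSet).2 fun i hi => hcon i hi)
  · intro X hX h0 H hH
    exact fin_index μ X hX.measurableSet h0 H fun y hy => not_not.1 (hH y hy)
  · intro X y hX
    change μ ((fun g => y * g) ⁻¹' X) ≠ 0
    rw [measure_preimage_mul]
    exact hX
  · intro Good hcl hconj θ hθ U₁ hU₁o hθU g₁ hnull
    have hle : μ Goodᶜ ≤ ENNReal.ofReal θ := by
      refine meas_le μ Good hcl θ ?_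
      intro U hUn hUo
      obtain ⟨C, hC⟩ : ∃ C : Set (GK K), C = {σ | ∀ u ∈ U, σ * u ∉ Good} := ⟨_, rfl⟩
      rw [← hC]
      have hfin : Finite (GK K ⧸ U) := Subgroup.quotient_finite_of_isOpen _ hUo
      have hC1 : ∀ σ ∈ C, ∀ τ : GK K, τ * σ * τ⁻¹ ∈ C := by
        rw [hC]
        intro σ hσ τ u hu hG
        refine hσ (τ⁻¹ * u * τ) ?_ ?_
        · have := hUn.conj_mem u hu τ⁻¹
          rwa [inv_inv] at this
        · have h1 := hconj _ hG τ⁻¹
          have h2 : τ⁻¹ * (τ * σ * τ⁻¹ * u) * τ⁻¹⁻¹ = σ * (τ⁻¹ * u * τ) := by group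
          rwa [h2] at h1
      have hC2 : ∀ σ ∈ C, ∀ u ∈ U, σ * u ∈ C := by
        rw [hC]
        intro σ hσ u hu u' hu'
        rw [mul_assoc]
        exact hσ _ (U.mul_mem hu hu')
      have hcheb := Pool.Agent.Y142.chebK K U hUo C hC1 hC2
      have h1 : ∃ᶠ N : ℕ in atTop,
          dens (fun v : HeightOneSpectrum (𝓞 K) => ∃ σ ∈ C, IsFrob v σ) N ≤ θ := by
        refine hθ.mono fun N hN => le_trans (Pool.Agent.R401.Eng.dens_le ?_ N) hN
        rintro v ⟨σ, hσ, hv⟩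
        refine ⟨σ, hv, ?_⟩
        rw [hC] at hσ
        have := hσ 1 U.one_mem
        rwa [mul_one] at this
      have h2 := le_of_tendsto_of_frequently hcheb h1
      have h6 : (0 : ℝ) < Nat.card (GK K ⧸ U) := by exact_mod_cast Nat.card_pos
      rwa [div_le_iff₀ h6] at h2
    have hfin : Finite (GK K ⧸ U₁) := Subgroup.quotient_finite_of_isOpen _ hU₁o
    have hfi : U₁.FiniteIndex := Subgroup.finiteIndex_of_finite_quotient
    have hidx := Subgroup.index_mul_measure U₁ hU₁o.measurableSet μ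
    rw [measure_univ] at hidx
    have hcos : μ {g | g₁⁻¹ * g ∈ U₁} = μ (U₁ : Set (GK K)) :=
      measure_preimage_mul μ g₁⁻¹ (U₁ : Set (GK K))
    have hsub : {g | g₁⁻¹ * g ∈ U₁} ⊆ {g | g₁⁻¹ * g ∈ U₁ ∧ g ∈ Good} ∪ Goodᶜ := by
      intro g hg
      by_cases h : g ∈ Good
      · exact Or.inl ⟨hg, h⟩
      · exact Or.inr h
    have h4 : μ (U₁ : Set (GK K)) ≤ ENNReal.ofReal θ := by
      rw [← hcos]
      refine (measure_mono hsub).trans ((measure_union_le _ _).trans ?_)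
      rw [hnull, zero_add]
      exact hle
    have h5 : (1 : ENNReal) ≤ U₁.index * ENNReal.ofReal θ := by
      rw [← hidx]
      gcongr
    have h6 : (1 : ENNReal) ≤ ENNReal.ofReal (θ * U₁.index) := by
      rw [mul_comm θ, ENNReal.ofReal_mul (Nat.cast_nonneg _), ENNReal.ofReal_natCast]
      exact h5
    rw [ENNReal.one_le_ofReal] at h6
    linarith

end Pool.Agent.J6H29.ST
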