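import Pool.Agent.J6H29.ST.StmZ

/-!
# Statement of the module ST-ZARC: cosets
-/

set_option autoImplicit false
set_option maxHeartbeats 400000

namespace Pool.Agent.J6H29.ST

open NumberField Filter Topology IsDedekindDomain Pool.Agent.W401.Cheb Pool.Agent.R401.Sup
open Pool.Agent.W569.FM Pool.Agent.R401.Img Pool.Agent.R401.Eng Pool.Agent.R401.Sup2
open Pool.Agent.R401.Sup3 Pool.Agent.R401.Tr1 Pool.Agent.R401.Tr3 Module Pool.Agent.R401.Tr5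
open Polynomial

/-- The Zariski closure of the image of `G₀` under `(ρ, η)` is connected: for every open subgroup
`H` the group `H ⊓ G₀` is dense in it. -/
def ConnOn {K : Type} [Field K] {F : Type} [Field F] {n m : ℕ}
    (ρ : GK K →* GL (Fin n) F) (η : GK K →* GL (Fin m) F) (G₀ : Subgroup (GK K)) : Prop :=
  ∀ H : Subgroup (GK K), IsOpen (H : Set (GK K)) →
    ∀ f : MvPolynomial ((Fin n × Fin n) ⊕ (Fin m × Fin m)) F,
      (∀ h ∈ H, h ∈ G₀ → MvPolynomial.eval (ev ρ η h) f = 0) →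
        ∀ g ∈ G₀, MvPolynomial.eval (ev ρ η g) f = 0

/-- **ST-ZARC.** The version of `S_Zar` for a coset `g₁ G₀` of an open normal subgroup `G₀`. Same
proof: let `I` be maximal among the ideals which contain `f` and for which
`X I = {g | g₁⁻¹ * g ∈ G₀ ∧ ∀ f ∈ I, eval (ev ρ η g⁻¹) f = 0}` (closed) is `pos`. For `y ∈ G₀`
the set `{g ∈ X I | y * g ∈ X I}` is `X (I ⊔ span (y* '' I))`, as `y` maps the coset to itself
(`G₀` is normal); for `y ∉ G₀` the set `{g ∈ X I | y * g ∈ X I}` is empty, so not `pos`. Hence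
`H = {y | ∀ g, g ∈ X I ↔ y * g ∈ X I}` (contained in `G₀`) has finite index and is closed, so open.
For `y₁ ∈ X I` and `h ∈ H` we get `h * y₁ ∈ X I`, that is `eval (ev (y₁⁻¹ * h⁻¹)) f = 0`;
substituting and `ConnOn` give `eval (ev (y₁⁻¹ * g)) f = 0` for all `g ∈ G₀`. -/
def S_ZarC : Prop := ∀ (K : Type) [Field K] [NumberField K] (ℓ : ℕ) [Fact ℓ.Prime] (n m : ℕ)
  (ρ : GK K →* GL (Fin n) ℚ_[ℓ]) (_ : Continuous ρ) (η : GK K →* GL (Fin m) ℚ_[ℓ])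
  (_ : Continuous η) (G₀ : Subgroup (GK K)) (_ : G₀.Normal) (_ : IsOpen (G₀ : Set (GK K)))
  (_ : ConnOn ρ η G₀) (pos : Set (GK K) → Prop)
  (_ : ∀ X Y : Set (GK K), X ⊆ Y → pos X → pos Y)
  (_ : ∀ (ι : Type) (s : Finset ι) (X : ι → Set (GK K)), pos (⋃ i ∈ s, X i) → ∃ i ∈ s, pos (X i))
  (_ : ∀ X : Set (GK K), IsClosed X → pos X → ∀ H : Subgroup (GK K),
      (∀ y, y ∉ H → ¬ pos {g | g ∈ X ∧ y * g ∈ X}) → H.FiniteIndex)
  (_ : ∀ (X : Set (GK K)) (y : GK K), pos X → pos {g | y * g ∈ X})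
  (f : MvPolynomial ((Fin n × Fin n) ⊕ (Fin m × Fin m)) ℚ_[ℓ]) (g₁ : GK K),
  pos {g | g₁⁻¹ * g ∈ G₀ ∧ MvPolynomial.eval (ev ρ η g⁻¹) f = 0} →
    ∀ g, g₁⁻¹ * g ∈ G₀ → MvPolynomial.eval (ev ρ η g⁻¹) f = 0

end Pool.Agent.J6H29.ST
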