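import Pool.Agent.J6H29.ST.Meas3
import Pool.Agent.J6H29.ST.StmC
import Pool.Agent.J6H29.ST.Fam

/-!
# ST: connected monodromy
-/

set_option autoImplicit false
set_option maxHeartbeats 400000

namespace Pool.Agent.J6H29.ST

open NumberField Filter Topology IsDedekindDomain Pool.Agent.W401.Cheb Pool.Agent.R401.Sup
open Pool.Agent.W569.FM Pool.Agent.R401.Img Pool.Agent.R401.Eng Pool.Agent.R401.Sup2
open Pool.Agent.R401.Sup3 Pool.Agent.R401.Tr1 Pool.Agent.R401.Tr3 Module Pool.Agent.R401.Tr5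

variable {K : Type} [Field K] [NumberField K]

/-- there are Frobenius elements at every place -/
theorem exists_isFrob (v : HeightOneSpectrum (𝓞 K)) : ∃ g, IsFrob v g := by
  have : Algebra.IsIntegral (𝓞 K) (𝓞 (AlgebraicClosure K)) := by
    constructor
    intro x
    have h := RingOfIntegers.isIntegral x
    exact h.tower_top
  have hvm : v.asIdeal.IsMaximal := v.isMaximal
  obtain ⟨Q, hQm, hQv⟩ := Ideal.exists_ideal_over_maximal_of_isIntegral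
    (S := (𝓞 (AlgebraicClosure K))) v.asIdeal (by
    rw [(RingHom.injective_iff_ker_eq_bot _).1
      (FaithfulSMul.algebraMap_injective (𝓞 K) (𝓞 (AlgebraicClosure K)))]
    exact bot_le)
  obtain ⟨σ, hσ⟩ := Pool.Agent.W352.ChAbs.exists_frob v Q hQv
  exact ⟨σ, Q, hQm, hQv, hσ⟩

section poly

open MvPolynomial

variable {F : Type} [Field F] {n m : ℕ}

/-- the polynomials -/
noncomputable def MR (F : Type) [Field F] (n m : ℕ) :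
    Matrix (Fin n) (Fin n) (MvPolynomial ((Fin n × Fin n) ⊕ (Fin m × Fin m)) F) :=
  Matrix.of fun i j => X (Sum.inl (i, j))

/-- the polynomials -/
noncomputable def ME (F : Type) [Field F] (n m : ℕ) :
    Matrix (Fin m) (Fin m) (MvPolynomial ((Fin n × Fin n) ⊕ (Fin m × Fin m)) F) :=
  Matrix.of fun i j => X (Sum.inr (i, j))

/-- the polynomial -/
noncomputable def pf (F : Type) [Field F] (n m : ℕ) (y : F) :
    MvPolynomial ((Fin n × Fin n) ⊕ (Fin m × Fin m)) F :=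
  ((MR F n m).trace - (ME F n m).trace) ^ (2 * (n + m)) -
    C (y ^ (n + m)) * ((MR F n m).det ^ 2 * (ME F n m).det ^ 2)

theorem eval_pf (ρ : GK K →* GL (Fin n) F) (η : GK K →* GL (Fin m) F) (y : F) (g : GK K) :
    eval (ev ρ η g) (pf F n m y) = ((Pool.Agent.R401.Img.mt ρ g).trace -
      (Pool.Agent.R401.Img.mt η g).trace) ^ (2 * (n + m)) -
      y ^ (n + m) * ((Pool.Agent.R401.Img.mt ρ g).det ^ 2 * (Pool.Agent.R401.Img.mt η g).det ^ 2) := by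
  have h1 : (eval (ev ρ η g)).mapMatrix (MR F n m) = Pool.Agent.R401.Img.mt ρ g := by
    ext i j
    simp only [RingHom.mapMatrix_apply, Matrix.map_apply, MR, Matrix.of_apply, eval_X]
    rfl
  have h2 : (eval (ev ρ η g)).mapMatrix (ME F n m) = Pool.Agent.R401.Img.mt η g := by
    ext i j
    simp only [RingHom.mapMatrix_apply, Matrix.map_apply, ME, Matrix.of_apply, eval_X]
    rfl
  have h3 : eval (ev ρ η g) (MR F n m).trace = (Pool.Agent.R401.Img.mt ρ g).trace := by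
    rw [← h1, Matrix.trace, Matrix.trace, map_sum]
    rfl
  have h4 : eval (ev ρ η g) (ME F n m).trace = (Pool.Agent.R401.Img.mt η g).trace := by
    rw [← h2, Matrix.trace, Matrix.trace, map_sum]
    rfl
  unfold pf
  rw [map_sub, map_pow, map_sub, h3, h4, map_mul, eval_C, map_mul, map_pow, map_pow,
    RingHom.map_det, RingHom.map_det, h1, h2]

end poly

section one

variable {ℓ : ℕ} [Fact ℓ.Prime] {n m : ℕ}

/-- **Connected monodromy.** -/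
theorem conn_fin (hMe : S_Meas3) (hZ : S_ZarC) (hDe : S_Det) (hGo : S_Good)
    (ρ : GK K →* GL (Fin n) ℚ_[ℓ]) (hρ : Continuous ρ) (η : GK K →* GL (Fin m) ℚ_[ℓ])
    (hη : Continuous η) (G₀ : Subgroup (GK K)) (hG₀n : G₀.Normal)
    (hG₀o : IsOpen (G₀ : Set (GK K))) (hconn : ConnOn ρ η G₀)
    (B : Set (HeightOneSpectrum (𝓞 K))) (hB : B.Finite) (a : HeightOneSpectrum (𝓞 K) → ℚ) (w : ℤ)
    (htr : ∀ v, v ∉ B → (ℓ : 𝓞 K) ∉ v.asIdeal → ∀ g, IsFrob v g →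
      (mt ρ g⁻¹).trace - (mt η g⁻¹).trace = (a v : ℚ_[ℓ]))
    (hpur : ∀ v, v ∉ B → (ℓ : 𝓞 K) ∉ v.asIdeal → ∀ g, IsFrob v g → ∃ h h' : Polynomial ℚ,
      (mt ρ g⁻¹).charpoly = h.map (Rat.castHom ℚ_[ℓ]) ∧
      (∀ z : ℂ, (h.map (Rat.castHom ℂ)).IsRoot z → ‖z‖ ^ 2 = (Ideal.absNorm v.asIdeal : ℝ) ^ w) ∧
      (mt η g⁻¹).charpoly = h'.map (Rat.castHom ℚ_[ℓ]) ∧
      (∀ z : ℂ, (h'.map (Rat.castHom ℂ)).IsRoot z → ‖z‖ ^ 2 = (Ideal.absNorm v.asIdeal : ℝ) ^ w))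
    (C : ℝ) (hC : ∀ v, v ∉ B → (a v : ℝ) ^ 2 ≤ C * (Ideal.absNorm v.asIdeal : ℝ) ^ w) (θ : ℝ)
    (hθ : θ * G₀.index < 1) {d : ℕ} (hd : 0 < d)
    (hP : ∃ᶠ N : ℕ in atTop, dens (fun v : HeightOneSpectrum (𝓞 K) =>
      ¬ ∃ c : ℤ, (d : ℚ) * a v ^ 2 = (Ideal.absNorm v.asIdeal : ℚ) ^ w * c) N ≤ θ) :
    ∃ R : Set ℚ, R.Finite ∧ ∀ v : HeightOneSpectrum (𝓞 K), v ∉ B → (ℓ : 𝓞 K) ∉ v.asIdeal →
      ∃ r ∈ R, a v ^ 2 = (Ideal.absNorm v.asIdeal : ℚ) ^ w * r := by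
  classical
  have hN0 : ∀ v : HeightOneSpectrum (𝓞 K), (0 : ℚ) < Ideal.absNorm v.asIdeal := fun v => by
    have := Nat.pos_of_ne_zero (fun h0 => v.ne_bot (Ideal.absNorm_eq_zero_iff.1 h0))
    exact_mod_cast this
  rcases Nat.eq_zero_or_pos (n + m) with h0 | hN
  · have hn : n = 0 := by omega
    have hm : m = 0 := by omega
    subst hn
    subst hm
    refine ⟨{0}, Set.finite_singleton _, fun v hv hvℓ => ⟨0, rfl, ?_⟩⟩
    obtain ⟨γ, hγ⟩ := exists_isFrob v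
    have h1 := htr v hv hvℓ γ hγ
    rw [Matrix.trace_fin_zero, Matrix.trace_fin_zero, sub_zero] at h1
    have h2 : a v = 0 := by exact_mod_cast h1.symm
    rw [h2]
    simp
  set T : GK K → ℚ_[ℓ] := fun g => (mt ρ g⁻¹).trace - (mt η g⁻¹).trace with hT
  have hTc : Continuous T := ((continuous_trace ρ hρ).comp continuous_inv).sub
    ((continuous_trace η hη).comp continuous_inv)
  have hcyc : ∀ x y, T (x * y) = T (y * x) := by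
    intro x y
    simp only [hT]
    rw [mul_inv_rev, mul_inv_rev, mt_mul, mt_mul, mt_mul, mt_mul, Matrix.trace_mul_comm,
      Matrix.trace_mul_comm (mt η y⁻¹)]
  have hfin : Finite (GK K ⧸ G₀) := Subgroup.quotient_finite_of_isOpen _ hG₀o
  have hfi : G₀.FiniteIndex := Subgroup.finiteIndex_of_finite_quotient
  have hi0 : (0 : ℝ) < G₀.index := by exact_mod_cast Nat.pos_of_ne_zero hfi.index_ne_zero
  set ε : ℝ := (1 - θ * G₀.index) / (2 * G₀.index) with hε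
  have hε0 : 0 < ε := div_pos (by linarith) (by positivity)
  have hθε : (θ + ε) * G₀.index < 1 := by
    have h1 : ε * G₀.index = (1 - θ * G₀.index) / 2 := by
      rw [hε]
      field_simp
    rw [add_mul, h1]
    linarith
  obtain ⟨Y, hYf, -, hbad⟩ := hGo K ℓ T B hB a w htr C hC θ d hd hP ε hε0
  obtain ⟨pos, hp1, hp2, hp3, hp5, hp6⟩ := hMe K
  have hdetρ := hDe K ℓ n ρ hρ w (B ∪ {v | (ℓ : 𝓞 K) ∈ v.asIdeal})
    (hB.union (Pool.Agent.W352.ChAbs.over_le ℓ (Fact.out : ℓ.Prime)).1) (by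
    intro v hv g hg
    rw [Set.mem_union, not_or] at hv
    obtain ⟨h, h', h1, h2, h3, h4⟩ := hpur v hv.1 hv.2 g hg
    exact ⟨h, h1, h2⟩)
  have hdetη := hDe K ℓ m η hη w (B ∪ {v | (ℓ : 𝓞 K) ∈ v.asIdeal})
    (hB.union (Pool.Agent.W352.ChAbs.over_le ℓ (Fact.out : ℓ.Prime)).1) (by
    intro v hv g hg
    rw [Set.mem_union, not_or] at hv
    obtain ⟨h, h', h1, h2, h3, h4⟩ := hpur v hv.1 hv.2 g hg
    exact ⟨h', h3, h4⟩)
  set c := cyc K ℓ ℚ_[ℓ] with hc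
  have hdet : ∀ g, (mt ρ g⁻¹).det ^ 2 * (mt η g⁻¹).det ^ 2 = (c g ^ w) ^ (n + m) := by
    intro g
    rw [hdetρ, hdetη, ← zpow_add₀ (c_ne c g), ← zpow_natCast (c g ^ w), ← zpow_mul]
    congr 1
    push_cast
    ring
  have hall : ∀ g, ∃ y ∈ Y, T g ^ (2 * (n + m)) = y ^ (n + m) * (c g ^ w) ^ (n + m) := by
    intro g₁
    have hposG := hp6 (GG T c w Y) (isClosed_GG hTc (continuous_cyc K ℓ _) w hYf)
      (conj_GG hcyc _ w) (θ + ε) hbad G₀ hG₀o hθε g₁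
    obtain ⟨y, hyY, hy⟩ := hp2 ℚ_[ℓ] hYf.toFinset
      (fun y => {g | g₁⁻¹ * g ∈ G₀ ∧ MvPolynomial.eval (ev ρ η g⁻¹) (pf ℚ_[ℓ] n m y) = 0}) (by
      refine hp1 _ _ ?_ hposG
      rintro g ⟨hg, y, hy, h1⟩
      rw [Set.mem_iUnion₂]
      refine ⟨y, hYf.mem_toFinset.2 hy, hg, ?_⟩
      rw [eval_pf, hdet, pow_mul]
      have h2 : ((mt ρ g⁻¹).trace - (mt η g⁻¹).trace) ^ 2 = c g ^ w * y := h1
      rw [h2, mul_pow]
      ring)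
    have h1 := hZ K ℓ n m ρ hρ η hη G₀ hG₀n hG₀o hconn pos hp1 hp2 hp3 hp5 _ g₁ hy g₁ (by
      rw [inv_mul_cancel]
      exact G₀.one_mem)
    rw [eval_pf, hdet] at h1
    exact ⟨y, hYf.mem_toFinset.1 hyY, sub_eq_zero.1 h1⟩
  refine ⟨{r : ℚ | 0 ≤ r ∧ ∃ y ∈ Y, (r : ℚ_[ℓ]) ^ (n + m) = y ^ (n + m)}, ?_, ?_⟩
  · refine Set.Finite.of_finite_image (f := fun r : ℚ => (r : ℚ_[ℓ]) ^ (n + m))
      ((hYf.image fun y => y ^ (n + m)).subset ?_) ?_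
    · rintro _ ⟨r, ⟨-, y, hy, h1⟩, rfl⟩
      exact ⟨y, hy, h1.symm⟩
    · rintro r ⟨hr, -⟩ r' ⟨hr', -⟩ h1
      have h2 : r ^ (n + m) = r' ^ (n + m) := by
        have h3 : (r : ℚ_[ℓ]) ^ (n + m) = (r' : ℚ_[ℓ]) ^ (n + m) := h1
        exact_mod_cast h3
      exact (pow_left_inj₀ hr hr' hN.ne').1 h2
  · intro v hv hvℓ
    obtain ⟨γ, hγ⟩ := exists_isFrob v
    have hq : (0 : ℚ) < (Ideal.absNorm v.asIdeal : ℚ) ^ w := zpow_pos (hN0 v) w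
    obtain ⟨y, hy, h2⟩ := hall γ
    have hcγ : c γ = Ideal.absNorm v.asIdeal := cyc_frob ℓ _ hvℓ hγ
    have hTγ : T γ = (a v : ℚ_[ℓ]) := htr v hv hvℓ γ hγ
    refine ⟨a v ^ 2 / (Ideal.absNorm v.asIdeal : ℚ) ^ w, ⟨by positivity, y, hy, ?_⟩, ?_⟩
    · have hq' : ((Ideal.absNorm v.asIdeal : ℚ_[ℓ]) ^ w) ≠ 0 := by
        have h5 : (((Ideal.absNorm v.asIdeal : ℚ) ^ w : ℚ) : ℚ_[ℓ]) ≠ 0 :=
          Rat.cast_ne_zero.2 hq.ne'
        push_cast at h5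
        exact h5
      rw [hcγ, hTγ, pow_mul] at h2
      push_cast
      rw [div_pow, h2, mul_div_assoc, div_self (pow_ne_zero _ hq'), mul_one]
    · rw [mul_div_cancel₀ _ hq.ne']

end one

section family

variable {n m : ℕ}

/-- **Families with connected monodromy.** -/
theorem family3 (hMe : S_Meas3) (hZ : S_ZarC) (hDe : S_Det) (hGo : S_Good)
    (V : ∀ (ℓ : ℕ) [Fact ℓ.Prime], GK K →* GL (Fin n) ℚ_[ℓ])
    (hV : ∀ (ℓ : ℕ) [Fact ℓ.Prime], Continuous (V ℓ))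
    (W : ∀ (ℓ : ℕ) [Fact ℓ.Prime], GK K →* GL (Fin m) ℚ_[ℓ])
    (hW : ∀ (ℓ : ℕ) [Fact ℓ.Prime], Continuous (W ℓ))
    (B : Set (HeightOneSpectrum (𝓞 K))) (hB : B.Finite) (a : HeightOneSpectrum (𝓞 K) → ℚ) (w : ℤ)
    (htr : ∀ (ℓ : ℕ) [Fact ℓ.Prime], ∀ v, v ∉ B → (ℓ : 𝓞 K) ∉ v.asIdeal → ∀ g, IsFrob v g →
      (mt (V ℓ) g⁻¹).trace - (mt (W ℓ) g⁻¹).trace = (a v : ℚ_[ℓ]))
    (hpur : ∀ v, v ∉ B → ∃ h h' : Polynomial ℚ,
      (∀ z : ℂ, (h.map (Rat.castHom ℂ)).IsRoot z → ‖z‖ ^ 2 = (Ideal.absNorm v.asIdeal : ℝ) ^ w) ∧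
      (∀ z : ℂ, (h'.map (Rat.castHom ℂ)).IsRoot z → ‖z‖ ^ 2 = (Ideal.absNorm v.asIdeal : ℝ) ^ w) ∧
      ∀ (ℓ : ℕ) [Fact ℓ.Prime], (ℓ : 𝓞 K) ∉ v.asIdeal → ∀ g, IsFrob v g →
        (mt (V ℓ) g⁻¹).charpoly = h.map (Rat.castHom ℚ_[ℓ]) ∧
        (mt (W ℓ) g⁻¹).charpoly = h'.map (Rat.castHom ℚ_[ℓ]))
    (C : ℝ) (hC : ∀ v, v ∉ B → (a v : ℝ) ^ 2 ≤ C * (Ideal.absNorm v.asIdeal : ℝ) ^ w) (θ : ℝ)
    {d : ℕ} (hd : 0 < d)
    (hP : ∃ᶠ N : ℕ in atTop, dens (fun v : HeightOneSpectrum (𝓞 K) =>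
      ¬ ∃ c : ℤ, (d : ℚ) * a v ^ 2 = (Ideal.absNorm v.asIdeal : ℚ) ^ w * c) N ≤ θ)
    (ℓ₀ : ℕ) [Fact ℓ₀.Prime] (G₀ : Subgroup (GK K)) (hG₀n : G₀.Normal)
    (hG₀o : IsOpen (G₀ : Set (GK K))) (hθ : θ * G₀.index < 1)
    (hconn : ConnOn (V ℓ₀) (W ℓ₀) G₀) :
    ∃ (u : ℤ) (φ : GK K → ℚ) (U : Subgroup (GK K)), (w = 2 * u ∨ ∀ y, φ y = 0) ∧ U.Normal ∧
      IsOpen (U : Set (GK K)) ∧ (∀ x ∈ U, ∀ y, φ (x * y) = φ y) ∧
      ∀ (ℓ : ℕ) [Fact ℓ.Prime] (y : GK K),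
        cyc K ℓ ℚ_[ℓ] y ^ u * ((mt (V ℓ) y).trace - (mt (W ℓ) y).trace) = (φ y : ℚ_[ℓ]) := by
  classical
  set S : Set (HeightOneSpectrum (𝓞 K)) := B ∪ {v | (ℓ₀ : 𝓞 K) ∈ v.asIdeal} with hS
  have hSf : S.Finite := hB.union (Pool.Agent.W352.ChAbs.over_le ℓ₀ (Fact.out : ℓ₀.Prime)).1
  obtain ⟨R, hRf, hR⟩ := conn_fin hMe hZ hDe hGo (V ℓ₀) (hV ℓ₀) (W ℓ₀) (hW ℓ₀) G₀ hG₀n hG₀o hconn
    B hB a w (htr ℓ₀) (by
      intro v hv hℓ g hg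
      obtain ⟨h, h', h1, h2, h3⟩ := hpur v hv
      exact ⟨h, h', (h3 ℓ₀ hℓ g hg).1, h1, (h3 ℓ₀ hℓ g hg).2, h2⟩) C hC θ hθ hd hP
  set d' : ℕ := ∏ r ∈ hRf.toFinset, r.den with hd'
  have hd'0 : 0 < d' := Finset.prod_pos fun r _ => r.den_pos
  have hint : ∀ r ∈ R, ∃ c : ℤ, (d' : ℚ) * r = c := by
    intro r hr
    obtain ⟨k, hk⟩ := Finset.dvd_prod_of_mem (fun r : ℚ => r.den) (hRf.mem_toFinset.2 hr)
    refine ⟨k * r.num, ?_⟩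
    rw [hd', hk]
    push_cast
    rw [mul_comm (r.den : ℚ), mul_assoc, Rat.den_mul_eq_num]
  set N₀ : ℝ := (n : ℝ) ^ 2 + (m : ℝ) ^ 2 with hN₀
  have hN₀' : 0 ≤ N₀ := by positivity
  have hθ₀ : (0 : ℝ) < 1 / (2 * (N₀ + 1)) := by positivity
  refine Pool.Agent.R401.Tr7.family V hV W hW S hSf a w
    (fun ℓ _ v hv => htr ℓ v fun h => hv (Or.inl h)) C (fun v hv => hC v fun h => hv (Or.inl h))
    (1 / (2 * (N₀ + 1))) ?_ hd'0 ?_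
  · rw [← hN₀, div_mul_eq_mul_div, one_mul, div_lt_one (by positivity)]
    linarith
  · refine (((dens_fin (fun v : HeightOneSpectrum (𝓞 K) => v ∈ S) hSf).eventually
      (ge_mem_nhds hθ₀)).mono fun N hN => ?_).frequently
    refine (dens_le ?_ N).trans hN
    intro v hv
    by_contra hvS
    apply hv
    have hvS' := hvS
    rw [hS, Set.mem_union, not_or] at hvS'
    obtain ⟨r, hr, h1⟩ := hR v hvS'.1 hvS'.2
    obtain ⟨k, hk⟩ := hint r hr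
    refine ⟨k, ?_⟩
    rw [h1, ← hk]
    ring

end family

end Pool.Agent.J6H29.ST
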