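import Pool.Agent.J6H29.ST.Even

/-!
# ST: one prime
-/

set_option autoImplicit false
set_option maxHeartbeats 400000

namespace Pool.Agent.J6H29.ST

open NumberField Filter Topology IsDedekindDomain Pool.Agent.W401.Cheb Pool.Agent.R401.Sup
open Pool.Agent.W569.FM Pool.Agent.R401.Img Pool.Agent.R401.Eng Pool.Agent.R401.Sup2
open Pool.Agent.R401.Sup3 Pool.Agent.R401.Tr1 Pool.Agent.R401.Tr3 Module Pool.Agent.R401.Tr5

section alg

variable {F : Type} [Field F] {G : Type} [Group G]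

/-- the elements which act by scalars -/
def Sc (T : G → F) (hT : ∃ g, T g ≠ 0) : Subgroup G where
  carrier := {y | ∃ r : F, ∀ x, T (x * y) = r * T x}
  mul_mem' := by
    rintro y y' ⟨r, h⟩ ⟨r', h'⟩
    refine ⟨r' * r, fun x => ?_⟩
    rw [← mul_assoc, h', h, mul_assoc]
  one_mem' := by
    refine ⟨1, fun x => ?_⟩
    rw [mul_one, one_mul]
  inv_mem' := by
    rintro y ⟨r, h⟩
    have hr : r ≠ 0 := by
      rintro rfl
      obtain ⟨x, hx⟩ := hT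
      have h1 := h (x * y⁻¹)
      rw [inv_mul_cancel_right, zero_mul] at h1
      exact hx h1
    refine ⟨r⁻¹, fun x => ?_⟩
    have h2 := h (x * y⁻¹)
    rw [inv_mul_cancel_right] at h2
    rw [h2, inv_mul_cancel_left₀ hr]

end alg

section top

variable {F : Type} [Field F] {G : Type} [Group G] [TopologicalSpace G] [IsTopologicalGroup G]
  [TopologicalSpace F] [IsTopologicalRing F] [T2Space F]

theorem isClosed_Per {T : G → F} (hT : Continuous T) : IsClosed (Per T : Set G) := by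
  have h1 : (Per T : Set G) = ⋂ x, {y | T (x * y) = T x} := by
    ext y
    simp only [SetLike.mem_coe, mem_Per, Set.mem_iInter, Set.mem_setOf_eq]
  rw [h1]
  exact isClosed_iInter fun x => isClosed_eq (hT.comp (continuous_const.mul continuous_id))
    continuous_const

theorem isClosed_Sc {T : G → F} (hT : Continuous T) (hne : ∃ g, T g ≠ 0) :
    IsClosed (Sc T hne : Set G) := by
  obtain ⟨x₀, hx₀⟩ := id hne
  have h1 : (Sc T hne : Set G) = ⋂ x, {y | T (x * y) * T x₀ = T (x₀ * y) * T x} := by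
    ext y
    constructor
    · rintro ⟨r, h⟩
      refine Set.mem_iInter.2 fun x => ?_
      rw [Set.mem_setOf_eq, h, h]
      ring
    · intro h2
      refine ⟨T (x₀ * y) / T x₀, fun x => ?_⟩
      have h4 : T (x * y) * T x₀ = T (x₀ * y) * T x := Set.mem_iInter.1 h2 x
      field_simp
      exact h4
  rw [h1]
  exact isClosed_iInter fun x => isClosed_eq
    ((hT.comp (continuous_const.mul continuous_id)).mul continuous_const)
    ((hT.comp (continuous_const.mul continuous_id)).mul continuous_const)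

end top

section one

variable {K : Type} [Field K] [NumberField K] {ℓ : ℕ} [Fact ℓ.Prime] {n m : ℕ}

/-- the values at Frobenius elements -/
theorem frT (hPu : S_Pur) (ρ : GK K →* GL (Fin n) ℚ_[ℓ]) (η : GK K →* GL (Fin m) ℚ_[ℓ])
    {g : GK K} {h h' : Polynomial ℚ} {Q : ℝ} (hQ : 0 < Q)
    (hρ : (mt ρ g⁻¹).charpoly = h.map (Rat.castHom ℚ_[ℓ]))
    (hh : ∀ z : ℂ, (h.map (Rat.castHom ℂ)).IsRoot z → ‖z‖ ^ 2 = Q)
    (hη : (mt η g⁻¹).charpoly = h'.map (Rat.castHom ℚ_[ℓ]))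
    (hh' : ∀ z : ℂ, (h'.map (Rat.castHom ℂ)).IsRoot z → ‖z‖ ^ 2 = Q) (e : ℚ_[ℓ] →+* ℂ) :
    (∀ j : ℕ, ∃ r : ℚ, (mt ρ (g ^ j)⁻¹).trace - (mt η (g ^ j)⁻¹).trace = (r : ℚ_[ℓ])) ∧
    ∀ j : ℤ, ‖e ((mt ρ (g ^ j)⁻¹).trace - (mt η (g ^ j)⁻¹).trace)‖ ^ 2 ≤
      2 * ((n : ℝ) ^ 2 + (m : ℝ) ^ 2) * Q ^ j := by
  obtain ⟨h1, h2⟩ := hPu ℓ n (ρ g⁻¹) h hρ Q hQ hh e
  obtain ⟨h3, h4⟩ := hPu ℓ m (η g⁻¹) h' hη Q hQ hh' e
  have e1 : ∀ {r : ℕ} (ρ : GK K →* GL (Fin r) ℚ_[ℓ]) (j : ℤ), mt ρ (g ^ j)⁻¹ =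
      (((ρ g⁻¹) ^ j : GL (Fin r) ℚ_[ℓ]) : Matrix (Fin r) (Fin r) ℚ_[ℓ]) := by
    intro r ρ j
    unfold Pool.Agent.R401.Img.mt
    rw [← inv_zpow, map_zpow]
  constructor
  · intro j
    obtain ⟨r, hr⟩ := h1 j
    obtain ⟨r', hr'⟩ := h3 j
    refine ⟨r - r', ?_⟩
    have e2 := e1 ρ j
    have e3 := e1 η j
    rw [zpow_natCast, zpow_natCast] at e2 e3
    rw [e2, e3, hr, hr']
    push_cast
    rfl
  · intro j
    rw [e1, e1, map_sub]
    have h5 := h2 j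
    have h6 := h4 j
    have h7 := norm_sub_le (e ((((ρ g⁻¹) ^ j : GL (Fin n) ℚ_[ℓ]) :
      Matrix (Fin n) (Fin n) ℚ_[ℓ]).trace)) (e ((((η g⁻¹) ^ j : GL (Fin m) ℚ_[ℓ]) :
      Matrix (Fin m) (Fin m) ℚ_[ℓ]).trace))
    set x := ‖e ((((ρ g⁻¹) ^ j : GL (Fin n) ℚ_[ℓ]) : Matrix (Fin n) (Fin n) ℚ_[ℓ]).trace)‖
    set y := ‖e ((((η g⁻¹) ^ j : GL (Fin m) ℚ_[ℓ]) : Matrix (Fin m) (Fin m) ℚ_[ℓ]).trace)‖
    have h8 := pow_le_pow_left₀ (norm_nonneg _) h7 2
    nlinarith [sq_nonneg (x - y)]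

/-- **One prime.** -/
theorem one (hMe : S_Meas) (hPu : S_Pur) (hGo : S_Good) (hOd : S_Odd)
    (ρ : GK K →* GL (Fin n) ℚ_[ℓ]) (hρ : Continuous ρ) (η : GK K →* GL (Fin m) ℚ_[ℓ])
    (hη : Continuous η) {g₀ : GK K} (hg₀ : (mt ρ g₀).trace - (mt η g₀).trace ≠ 0)
    (B : Set (HeightOneSpectrum (𝓞 K))) (hB : B.Finite) (a : HeightOneSpectrum (𝓞 K) → ℚ) (w : ℤ)
    (htr : ∀ v, v ∉ B → (ℓ : 𝓞 K) ∉ v.asIdeal → ∀ g, IsFrob v g →
      (mt ρ g⁻¹).trace - (mt η g⁻¹).trace = (a v : ℚ_[ℓ]))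
    (hpur : ∀ v, v ∉ B → (ℓ : 𝓞 K) ∉ v.asIdeal → ∀ g, IsFrob v g → ∃ h h' : Polynomial ℚ,
      (mt ρ g⁻¹).charpoly = h.map (Rat.castHom ℚ_[ℓ]) ∧
      (∀ z : ℂ, (h.map (Rat.castHom ℂ)).IsRoot z → ‖z‖ ^ 2 = (Ideal.absNorm v.asIdeal : ℝ) ^ w) ∧
      (mt η g⁻¹).charpoly = h'.map (Rat.castHom ℚ_[ℓ]) ∧
      (∀ z : ℂ, (h'.map (Rat.castHom ℂ)).IsRoot z → ‖z‖ ^ 2 = (Ideal.absNorm v.asIdeal : ℝ) ^ w))
    (e : ℚ_[ℓ] →+* ℂ)
    (C : ℝ) (hC : ∀ v, v ∉ B → (a v : ℝ) ^ 2 ≤ C * (Ideal.absNorm v.asIdeal : ℝ) ^ w) (θ : ℝ)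
    (hθ : θ * (n ^ 2 + m ^ 2) < 2) {d : ℕ} (hd : 0 < d)
    (hP : ∃ᶠ N : ℕ in atTop, dens (fun v : HeightOneSpectrum (𝓞 K) =>
      ¬ ∃ c : ℤ, (d : ℚ) * a v ^ 2 = (Ideal.absNorm v.asIdeal : ℚ) ^ w * c) N ≤ θ) :
    (2 : ℤ) ∣ w ∧ ∀ u : ℤ, w = 2 * u →
      ∃ U : Subgroup (GK K), U.Normal ∧ IsOpen (U : Set (GK K)) ∧
        ∀ x ∈ U, ∀ y,
          cyc K ℓ ℚ_[ℓ] (x * y) ^ u * ((mt ρ (x * y)).trace - (mt η (x * y)).trace) =
          cyc K ℓ ℚ_[ℓ] y ^ u * ((mt ρ y).trace - (mt η y).trace) := by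
  classical
  set T : GK K → ℚ_[ℓ] := fun g => (mt ρ g⁻¹).trace - (mt η g⁻¹).trace with hT
  have hTc : Continuous T := ((continuous_trace ρ hρ).comp continuous_inv).sub
    ((continuous_trace η hη).comp continuous_inv)
  have hcyc : ∀ x y, T (x * y) = T (y * x) := by
    intro x y
    simp only [hT]
    rw [mul_inv_rev, mul_inv_rev, mt_mul, mt_mul, mt_mul, mt_mul, Matrix.trace_mul_comm,
      Matrix.trace_mul_comm (mt η y⁻¹)]
  have hT1 : T g₀⁻¹ ≠ 0 := by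
    simp only [hT]
    rw [inv_inv]
    exact hg₀
  obtain ⟨k, h, s, hk, hsep⟩ := exists_sep' (F := ℚ_[ℓ])
    (M := Matrix (Fin n) (Fin n) ℚ_[ℓ] × Matrix (Fin m) (Fin m) ℚ_[ℓ])
    (fun x : GK K => (mt ρ x⁻¹, mt η x⁻¹))
    (fun g => ((Matrix.traceLinearMap (Fin n) ℚ_[ℓ] ℚ_[ℓ]).comp
        (LinearMap.mulRight ℚ_[ℓ] (mt ρ g⁻¹))).comp (LinearMap.fst ℚ_[ℓ] _ _) -
      ((Matrix.traceLinearMap (Fin m) ℚ_[ℓ] ℚ_[ℓ]).comp
        (LinearMap.mulRight ℚ_[ℓ] (mt η g⁻¹))).comp (LinearMap.snd ℚ_[ℓ] _ _)) T (by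
      intro g x
      simp only [hT]
      rw [mul_inv_rev, mt_mul, mt_mul]
      rfl)
  have hk' : k ≤ n ^ 2 + m ^ 2 := by
    rw [Module.finrank_prod, Module.finrank_matrix, Module.finrank_matrix, Module.finrank_self,
      mul_one, mul_one, Fintype.card_fin, Fintype.card_fin, ← pow_two, ← pow_two] at hk
    exact hk
  have hk0 : 0 < k := by
    rcases Nat.eq_zero_or_pos k with h0 | h0
    · exfalso
      subst h0
      have h1 := hsep g₀⁻¹ 1
      rw [mul_one, Finset.univ_eq_empty, Finset.sum_empty] at h1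
      exact hT1 h1
    · exact h0
  -- the parameter
  set N₀ : ℕ := n ^ 2 + m ^ 2 with hN₀
  have hθ' : θ * N₀ < 2 := by
    rw [hN₀]
    push_cast
    exact hθ
  set ε : ℝ := (2 - θ * N₀) / (2 * (N₀ + 1)) with hε
  have hε0 : 0 < ε := div_pos (by linarith) (by positivity)
  have hθε : (θ + ε) * N₀ < 2 := by
    have h1 : ε * (N₀ + 1) = (2 - θ * N₀) / 2 := by
      rw [hε]
      field_simp
    have h2 : (θ + ε) * N₀ = θ * N₀ + ε * (N₀ + 1) - ε := by ring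
    rw [h2, h1]
    linarith
  have hkθ : k * (θ + ε) < 2 := by
    rcases le_or_gt 0 (θ + ε) with h0 | h0
    · have h1 : (k : ℝ) ≤ N₀ := by exact_mod_cast hk'
      calc k * (θ + ε) ≤ N₀ * (θ + ε) := mul_le_mul_of_nonneg_right h1 h0
        _ = (θ + ε) * N₀ := mul_comm _ _
        _ < 2 := hθε
    · have h1 : k * (θ + ε) ≤ 0 := mul_nonpos_of_nonneg_of_nonpos (Nat.cast_nonneg k) h0.le
      linarith
  obtain ⟨Y, hYf, hY0, hbad⟩ := hGo K ℓ T B hB a w htr C hC θ d hd hP ε hε0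
  obtain ⟨pos, hp1, hp2, hp3, hp4⟩ := hMe K
  obtain ⟨j₀, hj₀⟩ := hp4 (GG T (cyc K ℓ ℚ_[ℓ]) w Y) (isClosed_GG hTc (continuous_cyc K ℓ _) w hYf)
    (conj_GG hcyc _ w) (θ + ε) hbad k h hk0 hkθ
  -- the Frobenius elements
  set S : Set (HeightOneSpectrum (𝓞 K)) := B ∪ {v | (ℓ : 𝓞 K) ∈ v.asIdeal} with hS
  have hSf : S.Finite := hB.union (Pool.Agent.W352.ChAbs.over_le ℓ (Fact.out : ℓ.Prime)).1
  have hN0 : ∀ v : HeightOneSpectrum (𝓞 K), (0 : ℝ) < Ideal.absNorm v.asIdeal := fun v => by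
    have := Nat.pos_of_ne_zero (fun h0 => v.ne_bot (Ideal.absNorm_eq_zero_iff.1 h0))
    exact_mod_cast this
  have hfr : ∀ v, v ∉ S → ∀ g, IsFrob v g → (∀ j : ℕ, ∃ r : ℚ, T (g ^ j) = (r : ℚ_[ℓ])) ∧
      ∀ j : ℤ, ‖e (T (g ^ j))‖ ^ 2 ≤ 2 * ((n : ℝ) ^ 2 + (m : ℝ) ^ 2) *
        ((Ideal.absNorm v.asIdeal : ℝ) ^ w) ^ j := by
    intro v hv g hg
    rw [hS, Set.mem_union, not_or] at hv
    obtain ⟨q, q', h1, h2, h3, h4⟩ := hpur v hv.1 hv.2 g hg
    exact frT hPu ρ η (zpow_pos (hN0 v) w) h1 h2 h3 h4 e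
  have hw : (2 : ℤ) ∣ w := by
    by_contra hw
    have hY := hY0 hw
    set X : Set (GK K) := {g | ∀ i, i ≠ j₀ → T (g * h i) = 0} with hX
    have hXc : IsClosed X := by
      have h1 : X = ⋂ i, ⋂ (_ : i ≠ j₀), {g | T (g * h i) = 0} := by
        ext g
        simp [hX]
      rw [h1]
      exact isClosed_iInter fun i => isClosed_iInter fun _ =>
        isClosed_eq (hTc.comp (continuous_id.mul continuous_const)) continuous_const
    have hXp : pos X := by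
      refine hp1 _ _ ?_ hj₀
      intro g hg i hi
      obtain ⟨y, hy, h1⟩ := hg i hi
      rw [hY] at hy
      rw [Set.mem_singleton_iff.1 hy, mul_zero] at h1
      exact pow_eq_zero_iff two_ne_zero |>.1 h1
    have hval : ∀ g ∈ X, ∀ x, T (g * x) = T (g * h j₀) * s j₀ x := by
      intro g hg x
      rw [hsep, Finset.sum_eq_single j₀]
      · intro i _ hi
        rw [hg i hi, zero_mul]
      · intro h1
        exact absurd (Finset.mem_univ _) h1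
    have hne : ∀ g ∈ X, T (g * h j₀) ≠ 0 := by
      intro g hg h0
      have h1 := hval g hg (g⁻¹ * g₀⁻¹)
      rw [mul_inv_cancel_left, h0, zero_mul] at h1
      exact hT1 h1
    have hfi : (Sc T ⟨_, hT1⟩).FiniteIndex := by
      refine hp3 X hXc hXp _ fun y hy hpos => ?_
      have hemp : ¬ pos ∅ := by
        intro h
        obtain ⟨i, hi, -⟩ := hp2 ℕ ∅ (fun _ => ∅) (by simpa using h)
        simp at hi
      apply hemp
      refine hp1 _ _ ?_ hpos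
      rintro g ⟨hg1, hg2⟩
      exfalso
      apply hy
      refine ⟨T (y * g * h j₀) / T (g * h j₀), fun z => ?_⟩
      have h1 := hval g hg1 (g⁻¹ * z)
      have h2 := hval _ hg2 (g⁻¹ * z)
      have h3 : y * g * (g⁻¹ * z) = y * z := by group
      rw [h3] at h2
      rw [mul_inv_cancel_left] at h1
      rw [hcyc z y, h2, h1]
      field_simp [hne g hg1]
    have hcl := isClosed_Sc hTc ⟨_, hT1⟩
    exact hOd K ℓ T hTc hcyc g₀⁻¹ hT1 w hw (Sc T ⟨_, hT1⟩)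
      (Subgroup.isOpen_of_isClosed_of_finiteIndex _ hcl) (fun u hu => hu) S hSf _ e hfr
  refine ⟨hw, fun u hu => ?_⟩
  set c := cyc K ℓ ℚ_[ℓ] with hc
  have hcc : Continuous c := continuous_cyc K ℓ _
  have hc0 : ∀ x, c x ^ u ≠ 0 := fun x => zpow_ne_zero _ (c_ne c x)
  set T' : GK K → ℚ_[ℓ] := fun g => (c g ^ u)⁻¹ * T g with hT'
  have hT'c : Continuous T' :=
    ((hcc.zpow₀ u fun x => Or.inl (c_ne c x)).inv₀ hc0).mul hTc
  have hcyc' : ∀ x y, T' (x * y) = T' (y * x) := by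
    intro x y
    simp only [hT']
    rw [hcyc, map_mul, map_mul, mul_comm (c x)]
  have hsep' : ∀ g x, T' (g * x) = ∑ j, T' (g * h j) * (c (h j) ^ u * (c x ^ u)⁻¹ * s j x) := by
    intro g x
    simp only [hT']
    rw [hsep, Finset.mul_sum]
    refine Finset.sum_congr rfl fun j _ => ?_
    rw [map_mul, map_mul, mul_zpow, mul_zpow]
    have h1 := hc0 g
    have h2 := hc0 x
    have h3 := hc0 (h j)
    field_simp
  set Z : Set ℚ_[ℓ] := insert 0 {z | z ^ 2 ∈ Y} with hZ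
  have hZf : Z.Finite := by
    refine Set.Finite.insert 0 ?_
    have h1 : {z : ℚ_[ℓ] | z ^ 2 ∈ Y} = ⋃ y ∈ Y, {z | z ^ 2 = y} := by
      ext z
      simp
    rw [h1]
    refine hYf.biUnion fun y _ => ?_
    have h2 : {x : ℚ_[ℓ] | x ^ 2 = y} ⊆
        ((Polynomial.X ^ 2 - Polynomial.C y).roots.toFinset : Set ℚ_[ℓ]) := by
      intro x hx
      rw [Finset.mem_coe, Multiset.mem_toFinset, Polynomial.mem_roots
        (Polynomial.X_pow_sub_C_ne_zero two_pos y)]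
      simp only [Polynomial.IsRoot.def, Polynomial.eval_sub, Polynomial.eval_pow,
        Polynomial.eval_X, Polynomial.eval_C]
      exact sub_eq_zero.2 hx
    exact (Finset.finite_toSet _).subset h2
  have hGood : ∀ g ∈ GG T c w Y, T' g ∈ Z := by
    rintro g ⟨y, hy, h1⟩
    right
    change T' g ^ 2 ∈ Y
    have h2 : T' g ^ 2 = y := by
      simp only [hT']
      rw [mul_pow, h1, hu, inv_pow, ← zpow_natCast (c g ^ u) 2, ← zpow_mul, mul_comm u]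
      have h3 : c g ^ (((2 : ℕ) : ℤ) * u) ≠ 0 := zpow_ne_zero _ (c_ne c g)
      rw [← mul_assoc]
      push_cast at h3 ⊢
      rw [inv_mul_cancel₀ h3, one_mul]
    rwa [h2]
  -- the cover
  set XX : (Fin k → ℚ_[ℓ]) → Set (GK K) := fun τ => {g | ∀ i, i ≠ j₀ → T' (g * h i) = τ i} with hXX
  obtain ⟨τ, -, hτ⟩ := hp2 (Fin k → ℚ_[ℓ]) (Fintype.piFinset fun _ => hZf.toFinset) XX (by
    refine hp1 _ _ ?_ hj₀
    intro g hg
    rw [Set.mem_iUnion₂]
    refine ⟨fun i => if i = j₀ then 0 else T' (g * h i), ?_, ?_⟩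
    · rw [Fintype.mem_piFinset]
      intro i
      rw [hZf.mem_toFinset]
      split_ifs with hi
      · exact Or.inl rfl
      · exact hGood _ (hg i hi)
    · intro i hi
      exact (if_neg hi).symm)
  have hXc : IsClosed (XX τ) := by
    have h1 : XX τ = ⋂ i, ⋂ (_ : i ≠ j₀), {g | T' (g * h i) = τ i} := by
      ext g
      simp [hXX]
    rw [h1]
    exact isClosed_iInter fun i => isClosed_iInter fun _ =>
      isClosed_eq (hT'c.comp (continuous_id.mul continuous_const)) continuous_const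
  have hPf : (Per T').FiniteIndex := by
    by_contra hinf
    obtain ⟨H, hHn, hHo, κ, u₁, x₁, hu₁, hx₁, hκ⟩ := star hp2 hp3 hT'c hcyc' hinf hXc hτ
      (fun x => c (h j₀) ^ u * (c x ^ u)⁻¹ * s j₀ x) (by
        intro g hg g' hg'
        refine ⟨T' (g' * h j₀) - T' (g * h j₀), fun x => ?_⟩
        rw [hsep', hsep' g, ← Finset.sum_sub_distrib, Finset.sum_eq_single j₀]
        · ring
        · intro i _ hi
          rw [hg i hi, hg' i hi, sub_self]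
        · intro h1
          exact absurd (Finset.mem_univ _) h1)
    refine hinf (even hT'c hcyc' hHn hHo hu₁ hx₁ hκ hSf (2 * ((n : ℝ) ^ 2 + (m : ℝ) ^ 2)) e ?_)
    intro v hv g hg
    obtain ⟨h1, h2⟩ := hfr v hv g hg
    rw [hS, Set.mem_union, not_or] at hv
    have hcg : c g = Ideal.absNorm v.asIdeal := cyc_frob ℓ _ hv.2 hg
    constructor
    · intro j
      obtain ⟨r, hr⟩ := h1 j
      refine ⟨((((Ideal.absNorm v.asIdeal : ℚ)) ^ j) ^ u)⁻¹ * r, ?_⟩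
      simp only [hT']
      rw [hr, map_pow, hcg]
      push_cast
      rfl
    · intro j
      have h3 := h2 j
      simp only [hT']
      rw [map_mul, norm_mul, mul_pow, map_inv₀, map_zpow₀, c_zpow, map_zpow₀, hcg, map_natCast,
        norm_inv, norm_zpow, norm_zpow, Complex.norm_natCast]
      have h4 : (0 : ℝ) < (((Ideal.absNorm v.asIdeal : ℝ) ^ j) ^ u) ^ 2 := by
        have := hN0 v
        positivity
      rw [inv_pow, inv_mul_le_iff₀ h4]
      refine h3.trans (le_of_eq ?_)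
      rw [mul_comm]
      congr 1
      rw [hu, ← zpow_natCast, ← zpow_mul, ← zpow_mul, ← zpow_mul]
      congr 1
      push_cast
      ring
  have hPo : IsOpen (Per T' : Set (GK K)) :=
    Subgroup.isOpen_of_isClosed_of_finiteIndex _ (isClosed_Per hT'c)
  refine ⟨Per T', Per_normal hcyc', hPo, ?_⟩
  have hval : ∀ y, c y ^ u * ((mt ρ y).trace - (mt η y).trace) = T' y⁻¹ := by
    intro y
    simp only [hT', hT]
    rw [inv_inv, c_inv, inv_zpow, inv_inv]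
  intro x hx y
  rw [hval, hval, mul_inv_rev]
  exact (Per T').inv_mem hx y⁻¹

end one

end Pool.Agent.J6H29.ST
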