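import Pool.Agent.J6H29.ST.Stm

/-!
# ST: few elements separate, and the line
-/

set_option autoImplicit false
set_option maxHeartbeats 400000

namespace Pool.Agent.J6H29.ST

open Filter Topology Module Pool.Agent.R401.Tr1

section alg

variable {F : Type} [Field F] {G : Type} [Group G]

/-- few elements separate -/
theorem exists_sep' {M : Type*} [AddCommGroup M] [Module F M] [Module.Finite F M] (R : G → M)
    (L : G → M →ₗ[F] F) (T : G → F) (hT : ∀ g x, T (g * x) = L g (R x)) :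
    ∃ (m : ℕ) (h : Fin m → G) (s : Fin m → G → F), m ≤ finrank F M ∧
      ∀ g x, T (g * x) = ∑ j, T (g * h j) * s j x := by
  obtain ⟨f, hf1, hf2, -⟩ := Submodule.exists_fun_fin_finrank_span_eq F (Set.range R)
  choose h hh using hf1
  have h1 : ∀ x, ∃ c : Fin (finrank F (Submodule.span F (Set.range R))) → F,
      ∑ i, c i • f i = R x := by
    intro x
    have h2 : R x ∈ Submodule.span F (Set.range f) := by
      rw [hf2]
      exact Submodule.subset_span ⟨x, rfl⟩
    exact (Submodule.mem_span_range_iff_exists_fun F).1 h2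
  choose c hc using h1
  refine ⟨_, h, fun j x => c x j, Submodule.finrank_le _, fun g x => ?_⟩
  rw [hT, ← hc, map_sum]
  refine Finset.sum_congr rfl fun j _ => ?_
  rw [map_smul, hT, hh, smul_eq_mul, mul_comm]

/-- the periods -/
def Per (T : G → F) : Subgroup G where
  carrier := {x | ∀ g, T (g * x) = T g}
  mul_mem' := by
    intro a b ha hb g
    rw [← mul_assoc, hb, ha]
  one_mem' := by
    intro g
    rw [mul_one]
  inv_mem' := by
    intro a ha g
    have h1 := ha (g * a⁻¹)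
    rw [inv_mul_cancel_right] at h1
    exact h1.symm

theorem mem_Per {T : G → F} {x : G} : x ∈ Per T ↔ ∀ g, T (g * x) = T g := Iff.rfl

theorem Per_normal {T : G → F} (hcyc : ∀ x y, T (x * y) = T (y * x)) : (Per T).Normal := by
  refine ⟨fun x hx y g => ?_⟩
  have h1 : g * (y * x * y⁻¹) = (g * y * x) * y⁻¹ := by group
  rw [h1, hcyc, ← mul_assoc, mem_Per.1 hx, hcyc y⁻¹, mul_assoc g y y⁻¹, mul_inv_cancel, mul_one]

/-- the stabiliser of the line -/
def HH (T : G → F) (a : G) (s : G → F) (hs : ∃ x, s x ≠ 0) : Subgroup G where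
  carrier := {y | ∃ χ β : F, ∀ x, s (x * y) = χ * s x ∧ T (a * x * y) = T (a * x) + β * s x}
  mul_mem' := by
    rintro y y' ⟨χ, β, h⟩ ⟨χ', β', h'⟩
    refine ⟨χ' * χ, β + β' * χ, fun x => ⟨?_, ?_⟩⟩
    · rw [← mul_assoc, (h' _).1, (h x).1, mul_assoc]
    · have h1 : a * x * (y * y') = a * (x * y) * y' := by group
      rw [h1, (h' (x * y)).2, ← mul_assoc a x y, (h x).2, (h x).1]
      ring
  one_mem' := by
    refine ⟨1, 0, fun x => ⟨?_, ?_⟩⟩
    · rw [mul_one, one_mul]
    · rw [mul_one, zero_mul, add_zero]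
  inv_mem' := by
    rintro y ⟨χ, β, h⟩
    have hχ : χ ≠ 0 := by
      rintro rfl
      obtain ⟨x, hx⟩ := hs
      have h1 := (h (x * y⁻¹)).1
      rw [inv_mul_cancel_right, zero_mul] at h1
      exact hx h1
    have h1 : ∀ x, s (x * y⁻¹) = χ⁻¹ * s x := by
      intro x
      have h2 := (h (x * y⁻¹)).1
      rw [inv_mul_cancel_right] at h2
      rw [h2, inv_mul_cancel_left₀ hχ]
    refine ⟨χ⁻¹, -(β * χ⁻¹), fun x => ⟨h1 x, ?_⟩⟩
    have h2 := (h (x * y⁻¹)).2
    have h3 : a * (x * y⁻¹) * y = a * x := by group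
    rw [h3, h1, ← mul_assoc a x y⁻¹] at h2
    rw [h2]
    ring

end alg

section top

variable {F : Type} [Field F] {G : Type} [Group G] [TopologicalSpace G] [IsTopologicalGroup G]
  [TopologicalSpace F] [IsTopologicalRing F] [T2Space F]

theorem isClosed_HH {T : G → F} (hT : Continuous T) (a : G) {s : G → F} (hsc : Continuous s)
    (hs : ∃ x, s x ≠ 0) : IsClosed (HH T a s hs : Set G) := by
  obtain ⟨x₀, hx₀⟩ := id hs
  have h1 : (HH T a s hs : Set G) = (⋂ x, {y | s (x * y) * s x₀ = s (x₀ * y) * s x}) ∩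
      ⋂ x, {y | (T (a * x * y) - T (a * x)) * s x₀ = (T (a * x₀ * y) - T (a * x₀)) * s x} := by
    ext y
    constructor
    · rintro ⟨χ, β, h⟩
      refine ⟨Set.mem_iInter.2 fun x => ?_, Set.mem_iInter.2 fun x => ?_⟩
      · rw [Set.mem_setOf_eq, (h x).1, (h x₀).1]
        ring
      · rw [Set.mem_setOf_eq, (h x).2, (h x₀).2]
        ring
    · rintro ⟨h2, h3⟩
      refine ⟨s (x₀ * y) / s x₀, (T (a * x₀ * y) - T (a * x₀)) / s x₀, fun x => ⟨?_, ?_⟩⟩
      · have h4 : s (x * y) * s x₀ = s (x₀ * y) * s x := Set.mem_iInter.1 h2 x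
        field_simp
        exact h4
      · have h4 : (T (a * x * y) - T (a * x)) * s x₀ = (T (a * x₀ * y) - T (a * x₀)) * s x :=
          Set.mem_iInter.1 h3 x
        field_simp
        linear_combination h4
  rw [h1]
  refine IsClosed.inter (isClosed_iInter fun x => ?_) (isClosed_iInter fun x => ?_)
  · exact isClosed_eq ((hsc.comp (continuous_const.mul continuous_id)).mul continuous_const)
      ((hsc.comp (continuous_const.mul continuous_id)).mul continuous_const)
  · exact isClosed_eq (((hT.comp (continuous_const.mul continuous_id)).sub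
      continuous_const).mul continuous_const)
      (((hT.comp (continuous_const.mul continuous_id)).sub continuous_const).mul continuous_const)

/-- two points -/
theorem two_pts {pos : Set G → Prop}
    (h2 : ∀ (ι : Type) (s : Finset ι) (X : ι → Set G), pos (⋃ i ∈ s, X i) → ∃ i ∈ s, pos (X i))
    (h3 : ∀ X : Set G, IsClosed X → pos X → ∀ H : Subgroup G,
      (∀ y, y ∉ H → ¬ pos {g | g ∈ X ∧ y * g ∈ X}) → H.FiniteIndex) {T : G → F}
    (hcyc : ∀ x y, T (x * y) = T (y * x)) (hinf : ¬ (Per T).FiniteIndex) {X : Set G}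
    (hX : IsClosed X) (hp : pos X) : ∃ a ∈ X, ∃ b ∈ X, ∃ x, T (b * x) ≠ T (a * x) := by
  by_contra hcon
  push Not at hcon
  have h0 : ¬ pos ∅ := by
    intro h
    obtain ⟨i, hi, -⟩ := h2 ℕ ∅ (fun _ => ∅) (by simpa using h)
    simp at hi
  apply hinf
  refine h3 X hX hp (Per T) fun y hy hpos => ?_
  apply h0
  have h4 : {g | g ∈ X ∧ y * g ∈ X} = ∅ := by
    rw [Set.eq_empty_iff_forall_notMem]
    rintro g ⟨hg1, hg2⟩
    apply hy
    intro z
    have h5 := hcon g hg1 _ hg2 (g⁻¹ * z)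
    rw [mul_inv_cancel_left] at h5
    have h6 : y * g * (g⁻¹ * z) = y * z := by group
    rw [h6] at h5
    rw [hcyc z y, h5]
  rwa [h4] at hpos

/-- **The line.** -/
theorem star {pos : Set G → Prop}
    (h2 : ∀ (ι : Type) (s : Finset ι) (X : ι → Set G), pos (⋃ i ∈ s, X i) → ∃ i ∈ s, pos (X i))
    (h3 : ∀ X : Set G, IsClosed X → pos X → ∀ H : Subgroup G,
      (∀ y, y ∉ H → ¬ pos {g | g ∈ X ∧ y * g ∈ X}) → H.FiniteIndex) {T : G → F}
    (hT : Continuous T)
    (hcyc : ∀ x y, T (x * y) = T (y * x)) (hinf : ¬ (Per T).FiniteIndex) {X : Set G}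
    (hX : IsClosed X) (hp : pos X) (s : G → F)
    (hs : ∀ g ∈ X, ∀ g' ∈ X, ∃ l : F, ∀ x, T (g' * x) - T (g * x) = l * s x) :
    ∃ H : Subgroup G, H.Normal ∧ IsOpen (H : Set G) ∧ ∃ (κ : G → F) (u₁ x₁ : G), u₁ ∈ H ∧
      T (u₁ * x₁) ≠ T x₁ ∧ ∀ u ∈ H, ∀ x, T (u * x) = T x + κ u * (T (u₁ * x) - T x) := by
  obtain ⟨a, ha, b, hb, x₀, hx₀⟩ := two_pts h2 h3 hcyc hinf hX hp
  set s₀ : G → F := fun x => T (b * x) - T (a * x) with hs₀
  have hs₀c : Continuous s₀ := (hT.comp (continuous_const.mul continuous_id)).sub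
    (hT.comp (continuous_const.mul continuous_id))
  have hne : ∃ x, s₀ x ≠ 0 := ⟨x₀, sub_ne_zero.2 hx₀⟩
  obtain ⟨lb, hlb⟩ := hs a ha b hb
  have hlb0 : lb ≠ 0 := by
    rintro rfl
    have := hlb x₀
    rw [zero_mul] at this
    exact hx₀ (sub_eq_zero.1 this)
  have hline : ∀ g ∈ X, ∃ l : F, ∀ x, T (g * x) = T (a * x) + l * s₀ x := by
    intro g hg
    obtain ⟨l, hl⟩ := hs a ha g hg
    refine ⟨l / lb, fun x => ?_⟩
    have h4 := hl x
    have h5 : s₀ x = lb * s x := hlb x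
    rw [h5]
    field_simp
    linear_combination h4
  have hfi : (HH T a s₀ hne).FiniteIndex := by
    refine h3 X hX hp _ fun y hy hpos => ?_
    apply hy
    have hZ : IsClosed {g | g ∈ X ∧ y * g ∈ X} :=
      hX.inter (hX.preimage (continuous_const.mul continuous_id))
    obtain ⟨g, ⟨hg, hyg⟩, g', ⟨hg', hyg'⟩, x₂, hx₂⟩ := two_pts h2 h3 hcyc hinf hZ hpos
    obtain ⟨l, hl⟩ := hline g hg
    obtain ⟨l', hl'⟩ := hline g' hg'
    obtain ⟨m, hm⟩ := hline _ hyg
    obtain ⟨m', hm'⟩ := hline _ hyg'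
    have hll : l' - l ≠ 0 := by
      intro h0
      apply hx₂
      rw [hl', hl, sub_eq_zero.1 h0]
    have hy1 : ∀ x, T (a * (x * y)) + l * s₀ (x * y) = T (a * x) + m * s₀ x := by
      intro x
      rw [← hl, ← hm, ← mul_assoc g x y, hcyc, mul_assoc]
    have hy2 : ∀ x, T (a * (x * y)) + l' * s₀ (x * y) = T (a * x) + m' * s₀ x := by
      intro x
      rw [← hl', ← hm', ← mul_assoc g' x y, hcyc, mul_assoc]
    have hχ : ∀ x, s₀ (x * y) = ((m' - m) / (l' - l)) * s₀ x := by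
      intro x
      field_simp
      linear_combination hy2 x - hy1 x
    refine ⟨(m' - m) / (l' - l), m - l * ((m' - m) / (l' - l)), fun x => ⟨hχ x, ?_⟩⟩
    have h6 := hy1 x
    rw [hχ x] at h6
    rw [mul_assoc]
    linear_combination h6
  have hcl := isClosed_HH hT a hs₀c hne
  set H₀ := HH T a s₀ hne with hH₀
  have ho : IsOpen (H₀ : Set G) := Subgroup.isOpen_of_isClosed_of_finiteIndex _ hcl
  have hNo : IsOpen (H₀.normalCore : Set G) :=
    Subgroup.isOpen_of_isClosed_of_finiteIndex _ (H₀.normalCore_isClosed hcl)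
  have hNfi : H₀.normalCore.FiniteIndex := inferInstance
  -- the functions
  have hβ : ∀ y, ∃ β : F, y ∈ H₀ → ∀ x, T (x * y) = T x + β * s₀ (a⁻¹ * x) := by
    intro y
    by_cases hy : y ∈ H₀
    · obtain ⟨χ, β, h⟩ := hy
      refine ⟨β, fun _ x => ?_⟩
      have h4 := (h (a⁻¹ * x)).2
      rw [mul_inv_cancel_left] at h4
      exact h4
    · exact ⟨0, fun h => absurd h hy⟩
  choose β hβ using hβ
  have hu₁ : ∃ u₁ ∈ H₀.normalCore, ∃ x₁, T (x₁ * u₁) ≠ T x₁ := by
    by_contra hcon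
    push Not at hcon
    exact hinf (Subgroup.finiteIndex_of_le (H := H₀.normalCore) fun u hu => hcon u hu)
  obtain ⟨u₁, hu₁, x₁, hx₁⟩ := hu₁
  have hle := H₀.normalCore_le
  have hβ₁ : β u₁ ≠ 0 := by
    intro h0
    apply hx₁
    rw [hβ u₁ (hle hu₁), h0, zero_mul, add_zero]
  refine ⟨H₀.normalCore, inferInstance, hNo, fun u => β u / β u₁, u₁, x₁, hu₁, ?_, ?_⟩
  · rw [hcyc]
    exact hx₁
  · intro u hu x
    rw [hcyc u x, hcyc u₁ x, hβ u (hle hu), hβ u₁ (hle hu₁)]
    field_simp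
    ring

end top

end Pool.Agent.J6H29.ST
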