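import Pool.Agent.R401.Tr10

/-!
# Statements of the modules of the project ST (sharp thresholds)

`GK K` is the absolute Galois group of the number field `K` (compact), `cyc K ℓ ℚ_[ℓ]` the
cyclotomic character, `IsFrob v g` says that `g` is an (arithmetic) Frobenius element at `v`,
`dens P N = #{v : N(v) ≤ N, P v} / π(N)`, `GG T c w Y = {g | ∃ y ∈ Y, T g ^ 2 = c g ^ w * y}`.
-/

set_option autoImplicit false
set_option maxHeartbeats 400000

namespace Pool.Agent.J6H29.ST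

open NumberField Filter Topology IsDedekindDomain Pool.Agent.W401.Cheb Pool.Agent.R401.Sup
open Pool.Agent.W569.FM Pool.Agent.R401.Img Pool.Agent.R401.Eng Pool.Agent.R401.Sup2
open Pool.Agent.R401.Sup3 Pool.Agent.R401.Tr1 Pool.Agent.R401.Tr3 Module Pool.Agent.R401.Tr5
open Polynomial

/-- **ST-MEAS.** A notion of positive measure. Take `pos X := μ X ≠ 0`, where `μ` is the Haar
probability measure for `borel (GK K)` (`haarMeasure` of the positive compact `⊤`, left invariant).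
(1), (2) are clear (outer measure). (3) is pigeonhole: if `H` had infinite index choose `k` cosets
`q` with `k * μ X > 1`; the translates `q.out • X` are pairwise a.e.-disjoint (left invariance and
the hypothesis), so `measure_biUnion_finset₀` gives `k * μ X ≤ 1`.
(4): first `μ Goodᶜ ≤ θ`: by inner regularity of the open set `Goodᶜ`
(`IsOpen.measure_eq_iSup_isCompact`) it is enough to bound `μ C` for compact `C ⊆ Goodᶜ`; there is
an open normal `U` with `C * U ⊆ Goodᶜ` (compactness; see `hTO` in the proof of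
`Pool.Agent.R401.Eng.engine`); `D = {σ | ∀ u ∈ U, σ * u ∉ Good}` contains `C`, is a union of
`ncard (mk '' D)` cosets of `U`, each of measure `1 / card (G ⧸ U)`; and the theorem `chebK` gives
`ncard (mk '' D) / card (G ⧸ U) ≤ θ` exactly as in the proof of `Pool.Agent.R401.Eng.engine`.
Then, as `g * h i ∈ Good ↔ h i * g ∈ Good` (conjugation), `μ {g | g * h i ∉ Good} ≤ θ` by left
invariance. Every `g` outside `⋃ j₀, {g | ∀ i ≠ j₀, g * h i ∈ Good}` lies in at least two of the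
sets `{g | g * h i ∉ Good}`, hence `2 * μ (complement of the union) ≤ k * θ < 2` (integrate the sum
of the indicator functions), so the union does not have measure zero. -/
def S_Meas : Prop := ∀ (K : Type) [Field K] [NumberField K],
  ∃ pos : Set (GK K) → Prop,
    (∀ X Y : Set (GK K), X ⊆ Y → pos X → pos Y) ∧
    (∀ (ι : Type) (s : Finset ι) (X : ι → Set (GK K)), pos (⋃ i ∈ s, X i) → ∃ i ∈ s, pos (X i)) ∧
    (∀ X : Set (GK K), IsClosed X → pos X → ∀ H : Subgroup (GK K),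
      (∀ y, y ∉ H → ¬ pos {g | g ∈ X ∧ y * g ∈ X}) → H.FiniteIndex) ∧
    (∀ Good : Set (GK K), IsClosed Good → (∀ g ∈ Good, ∀ x : GK K, x * g * x⁻¹ ∈ Good) → ∀ θ : ℝ,
      (∃ᶠ N : ℕ in atTop,
        dens (fun v : HeightOneSpectrum (𝓞 K) => ∃ g, IsFrob v g ∧ g ∉ Good) N ≤ θ) →
      ∀ (k : ℕ) (h : Fin k → GK K), 0 < k → k * θ < 2 → ∃ j₀, pos {g | ∀ i, i ≠ j₀ → g * h i ∈ Good})

/-- **ST-PUR.** Powers of a matrix with a rational, pure characteristic polynomial. The traces of the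
powers are rational: `Pool.Agent.R401.Tr10.coeff_rev` and `Pool.Agent.R401.Tr10.trace_eq_tn`.
The bound: `Pool.Agent.R401.Tr10.pure` gives the eigenvalues of `A.map e`; for `j ≥ 0` the
eigenvalues of `(A.map e) ^ j` are the powers (`spectrum.map_pow_of_pos`), and for `j < 0` use the
inverse matrix (`spectrum.map_inv` or similar); the trace is the sum of the `n` roots of the
characteristic polynomial (`Matrix.trace_eq_sum_roots_charpoly`), which all have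
`‖z‖ ^ 2 = Q ^ j`. -/
def S_Pur : Prop := ∀ (ℓ : ℕ) [Fact ℓ.Prime] (n : ℕ) (A : GL (Fin n) ℚ_[ℓ]) (h : ℚ[X]),
  (A : Matrix (Fin n) (Fin n) ℚ_[ℓ]).charpoly = h.map (Rat.castHom ℚ_[ℓ]) → ∀ Q : ℝ, 0 < Q →
  (∀ z : ℂ, (h.map (Rat.castHom ℂ)).IsRoot z → ‖z‖ ^ 2 = Q) → ∀ e : ℚ_[ℓ] →+* ℂ,
    (∀ j : ℕ, ∃ r : ℚ, ((A ^ j : GL (Fin n) ℚ_[ℓ]) : Matrix (Fin n) (Fin n) ℚ_[ℓ]).trace =
      (r : ℚ_[ℓ])) ∧
    ∀ j : ℤ, ‖e (((A ^ j : GL (Fin n) ℚ_[ℓ]) : Matrix (Fin n) (Fin n) ℚ_[ℓ]).trace)‖ ^ 2 ≤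
      (n : ℝ) ^ 2 * Q ^ j

/-- **ST-GOOD.** The good set. This is contained in the proofs of `Pool.Agent.R401.Tr7.one` (the
deduction of the hypotheses of `Tr2.main`: `P`, `b v`, `hbC`, the frequently statement with the
`finsum`) and of `Pool.Agent.R401.Tr2.main` with `E = ℚ` (the two statements `hbad`; the set `Y` is
`{0}` if `w` is odd and `(fun y : 𝓞 ℚ => y / d) '' Y₀` if `w` is even): copy and simplify. -/
def S_Good : Prop := ∀ (K : Type) [Field K] [NumberField K] (ℓ : ℕ) [Fact ℓ.Prime]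
  (T : GK K → ℚ_[ℓ]) (B : Set (HeightOneSpectrum (𝓞 K))) (_ : B.Finite)
  (a : HeightOneSpectrum (𝓞 K) → ℚ) (w : ℤ)
  (_ : ∀ v, v ∉ B → (ℓ : 𝓞 K) ∉ v.asIdeal → ∀ g, IsFrob v g → T g = (a v : ℚ_[ℓ]))
  (C : ℝ) (_ : ∀ v, v ∉ B → (a v : ℝ) ^ 2 ≤ C * (Ideal.absNorm v.asIdeal : ℝ) ^ w) (θ : ℝ)
  (d : ℕ) (_ : 0 < d)
  (_ : ∃ᶠ N : ℕ in atTop, dens (fun v : HeightOneSpectrum (𝓞 K) =>
      ¬ ∃ c : ℤ, (d : ℚ) * a v ^ 2 = (Ideal.absNorm v.asIdeal : ℚ) ^ w * c) N ≤ θ)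
  (ε : ℝ) (_ : 0 < ε),
  ∃ Y : Set ℚ_[ℓ], Y.Finite ∧ (¬ (2 : ℤ) ∣ w → Y = {0}) ∧ ∃ᶠ N : ℕ in atTop,
    dens (fun v : HeightOneSpectrum (𝓞 K) =>
      ∃ g, IsFrob v g ∧ g ∉ GG T (cyc K ℓ ℚ_[ℓ]) w Y) N ≤ θ + ε

/-- **ST-INT.** Integrality. As in `Pool.Agent.R401.Tr8.eig` (block matrices and
`charpoly_eq_of_traces`) the characteristic polynomials satisfy
`charpoly (A ^ M) * (X - D) ^ m = charpoly (R ^ M) * (X - D) ^ n`. `R ^ M` is killed by a monic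
`p : ℤ[X]` (`IsIntegral.pow`), so over an algebraic closure `charpoly (R ^ M)`, the product of the
`X - z` over its `m` roots `z` (each a root of `p`), divides `p ^ m`; by Cayley-Hamilton `A ^ M` is
killed by `p ^ m * (X - D) ^ n`, and `A` by the monic polynomial `(p ^ m * (X - D) ^ n) (X ^ M)`. -/
def S_Int : Prop := ∀ (ℓ : ℕ) [Fact ℓ.Prime] (n m : ℕ) (A : Matrix (Fin n) (Fin n) ℚ_[ℓ])
  (R : Matrix (Fin m) (Fin m) ℚ_[ℓ]) (M : ℕ) (_ : 0 < M) (D : ℤ)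
  (_ : ∀ k : ℕ, (A ^ (M * k)).trace - (R ^ (M * k)).trace = (D : ℚ_[ℓ]) ^ k * ((n : ℚ_[ℓ]) - m))
  (_ : ∃ q : ℤ[X], q.Monic ∧ aeval R q = 0), ∃ q : ℤ[X], q.Monic ∧ aeval A q = 0

/-- **ST-ODD.** The case of odd weight. Replace `H` by its normal core (open). For `u ∈ H` let
`r u` be the scalar; `r` is multiplicative, nonzero, and `r (y * u * y⁻¹) = r u` (from `hcyc`). Let
`f` be the index of `H`; `g ^ f ∈ H` for all `g`, and `T (g * (g ^ f) ^ j) = r (g ^ f) ^ j * T g`.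
(a) If `g ∈ x₁ H` is a Frobenius element at `v ∉ S` then `T g ≠ 0` and `T (g * g ^ f)`, `T g` are
rational, so `r (g ^ f)` is rational, and `‖e (T (g ^ (1 + f * j)))‖ ^ 2 ≤ M (q ^ w) ^ (1 + f * j)`
for all `j : ℤ` (`q = N(v)`) gives `r (g ^ f) ^ 2 = (q ^ w) ^ f = cyc (g ^ f) ^ w` (a positive real
number `x` with `x ^ j` bounded for all `j : ℤ` is `1`); `cyc g = q` by `cyc_frob`.
(b) Frobenius elements are dense in `x₁ H` (`Pool.Agent.R401.Tr2.exists_frob`, the union of `S` and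
the places above `ℓ`), hence `T (g * g ^ f) ^ 2 = cyc (g ^ f) ^ w * T g ^ 2` for all `g ∈ x₁ H`,
that is `g ^ f ∈ NN T cyc w` (`Pool.Agent.R401.Tr1.NN`, a normal subgroup).
(c) `x₁` and `u ∈ H` commute modulo `NN`, so `u ^ f ∈ NN` for `u ∈ H`: thus
`(r u ^ 2 / cyc u ^ w) ^ f = 1`, a finite set of values, so `NN` has finite index, and it is closed
(`isClosed_NN`), so open.
(d) With `N₀` the normal core of `NN`, all Frobenius elements `g ∈ x₁ N₀` satisfy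
`T g ^ 2 = cyc g ^ w * y₀` with `y₀ = T x₁ ^ 2 / cyc x₁ ^ w`; so `y₀` is a nonzero rational number
and `(T g) ^ 2 = N(v) ^ w * y₀` in `ℚ` at a set of places of positive density (`chebK`, as in the
proof of `exists_frob`), which contradicts `Pool.Agent.R401.Sup2.dens_odd` (`E = ℚ`). -/
def S_Odd : Prop := ∀ (K : Type) [Field K] [NumberField K] (ℓ : ℕ) [Fact ℓ.Prime]
  (T : GK K → ℚ_[ℓ]) (_ : Continuous T) (_ : ∀ x y, T (x * y) = T (y * x)) (x₁ : GK K)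
  (_ : T x₁ ≠ 0) (w : ℤ) (_ : ¬ (2 : ℤ) ∣ w) (H : Subgroup (GK K)) (_ : IsOpen (H : Set (GK K)))
  (_ : ∀ u ∈ H, ∃ r : ℚ_[ℓ], ∀ x, T (x * u) = r * T x)
  (S : Set (HeightOneSpectrum (𝓞 K))) (_ : S.Finite) (M : ℝ) (e : ℚ_[ℓ] →+* ℂ)
  (_ : ∀ v, v ∉ S → ∀ g, IsFrob v g → (∀ j : ℕ, ∃ r : ℚ, T (g ^ j) = (r : ℚ_[ℓ])) ∧
    ∀ j : ℤ, ‖e (T (g ^ j))‖ ^ 2 ≤ M * ((Ideal.absNorm v.asIdeal : ℝ) ^ w) ^ j), False

end Pool.Agent.J6H29.ST
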