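import Pool.Agent.J6H29.ST.Stm

/-!
# Statements of the second round of the project ST (connected monodromy)
-/

set_option autoImplicit false
set_option maxHeartbeats 400000

namespace Pool.Agent.J6H29.ST

open NumberField Filter Topology IsDedekindDomain Pool.Agent.W401.Cheb Pool.Agent.R401.Sup
open Pool.Agent.W569.FM Pool.Agent.R401.Img Pool.Agent.R401.Eng Pool.Agent.R401.Sup2
open Pool.Agent.R401.Sup3 Pool.Agent.R401.Tr1 Pool.Agent.R401.Tr3 Module Pool.Agent.R401.Tr5
open Polynomial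

/-- the matrix entries of `ρ g` and `η g` -/
noncomputable def ev {K : Type} [Field K] {F : Type} [Field F] {n m : ℕ}
    (ρ : GK K →* GL (Fin n) F) (η : GK K →* GL (Fin m) F) (g : GK K) :
    (Fin n × Fin n) ⊕ (Fin m × Fin m) → F :=
  Sum.elim (fun ij => (ρ g : Matrix (Fin n) (Fin n) F) ij.1 ij.2)
    (fun ij => (η g : Matrix (Fin m) (Fin m) F) ij.1 ij.2)

/-- The Zariski closure of the image of `(ρ, η)` is connected: every open subgroup is dense in it,
that is, a polynomial in the matrix entries which vanishes on an open subgroup vanishes on the whole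
group. -/
def Conn {K : Type} [Field K] {F : Type} [Field F] {n m : ℕ}
    (ρ : GK K →* GL (Fin n) F) (η : GK K →* GL (Fin m) F) : Prop :=
  ∀ H : Subgroup (GK K), IsOpen (H : Set (GK K)) →
    ∀ f : MvPolynomial ((Fin n × Fin n) ⊕ (Fin m × Fin m)) F,
      (∀ h ∈ H, MvPolynomial.eval (ev ρ η h) f = 0) → ∀ g, MvPolynomial.eval (ev ρ η g) f = 0

/-- **ST-ZAR.** Zariski closed sets of positive measure. For an ideal `I` of polynomials put
`X I = {g | ∀ f ∈ I, eval (ev ρ η g⁻¹) f = 0}` (closed). The polynomial ring is noetherian; let `I`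
be maximal among the ideals which contain the given `f` and for which `pos (X I)`. For `y : GK K`
there is a ring homomorphism `y*` of the polynomial ring (substitution, right multiplication of the
matrices by those of `y⁻¹`) with `eval (ev g⁻¹) (y* f) = eval (ev (y * g)⁻¹) f`, so
`{g ∈ X I | y * g ∈ X I} = X (I ⊔ span (y* '' I))`; if this is `pos` then maximality gives
`y* '' I ⊆ I`, so `g ∈ X I → y * g ∈ X I`, and (translation invariance of `pos`, the fourth property)
the same for `y⁻¹`. So the third property can be applied to `X I` and to the subgroup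
`H = {y | ∀ g, g ∈ X I ↔ y * g ∈ X I}`: it has finite index, and it is closed, so it is open. `X I`
is not empty (the empty set is not `pos`: the second property with the empty `s`); for `y₁ ∈ X I` and
`h ∈ H` we get `h * y₁ ∈ X I`, that is `eval (ev (y₁⁻¹ * h⁻¹)) f = 0`. Substituting (left
multiplication by `y₁⁻¹`) and using `Conn` for `H` gives `eval (ev (y₁⁻¹ * g)) f = 0` for all `g`. -/
def S_Zar : Prop := ∀ (K : Type) [Field K] [NumberField K] (ℓ : ℕ) [Fact ℓ.Prime] (n m : ℕ)
  (ρ : GK K →* GL (Fin n) ℚ_[ℓ]) (_ : Continuous ρ) (η : GK K →* GL (Fin m) ℚ_[ℓ])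
  (_ : Continuous η) (_ : Conn ρ η) (pos : Set (GK K) → Prop)
  (_ : ∀ X Y : Set (GK K), X ⊆ Y → pos X → pos Y)
  (_ : ∀ (ι : Type) (s : Finset ι) (X : ι → Set (GK K)), pos (⋃ i ∈ s, X i) → ∃ i ∈ s, pos (X i))
  (_ : ∀ X : Set (GK K), IsClosed X → pos X → ∀ H : Subgroup (GK K),
      (∀ y, y ∉ H → ¬ pos {g | g ∈ X ∧ y * g ∈ X}) → H.FiniteIndex)
  (_ : ∀ (X : Set (GK K)) (y : GK K), pos X → pos {g | y * g ∈ X})
  (f : MvPolynomial ((Fin n × Fin n) ⊕ (Fin m × Fin m)) ℚ_[ℓ]),
  pos {g | MvPolynomial.eval (ev ρ η g⁻¹) f = 0} → ∀ g, MvPolynomial.eval (ev ρ η g) f = 0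

/-- **ST-DET.** Determinants. At a Frobenius element `g` at `v ∉ S`, with `q = N(v)`, the determinant
of `mt ρ g⁻¹` is `(-1) ^ n` times the constant coefficient of `h`, a rational number `r`, and the
product of the `n` complex roots gives `r ^ 2 = (q ^ w) ^ n`; moreover `cyc g = q` by `cyc_frob` if
`ℓ ∉ v`. The Frobenius elements at the places outside the union of `S` and the (finitely many)
places above `ℓ` are dense (`Pool.Agent.R401.Tr2.exists_frob`, see `exists_frob_open` in
Pool/Agent/J6H29/ST/Even.lean) and both sides are continuous. -/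
def S_Det : Prop := ∀ (K : Type) [Field K] [NumberField K] (ℓ : ℕ) [Fact ℓ.Prime] (n : ℕ)
  (ρ : GK K →* GL (Fin n) ℚ_[ℓ]) (_ : Continuous ρ) (w : ℤ)
  (S : Set (HeightOneSpectrum (𝓞 K))) (_ : S.Finite)
  (_ : ∀ v, v ∉ S → ∀ g, IsFrob v g → ∃ h : ℚ[X],
    (mt ρ g⁻¹).charpoly = h.map (Rat.castHom ℚ_[ℓ]) ∧
    ∀ z : ℂ, (h.map (Rat.castHom ℂ)).IsRoot z → ‖z‖ ^ 2 = (Ideal.absNorm v.asIdeal : ℝ) ^ w),
  ∀ g, (mt ρ g⁻¹).det ^ 2 = cyc K ℓ ℚ_[ℓ] g ^ ((n : ℤ) * w)

end Pool.Agent.J6H29.ST
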