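import Pool.Agent.J6H29.ST.StmC
import Pool.Agent.J6H31.ST.ZarAbs

/-!
# ST: Zariski closed sets of positive measure in a coset (adapted from helper31's ZarAbs)
-/

set_option autoImplicit false
set_option maxHeartbeats 400000

namespace Pool.Agent.J6H29.ST

open MvPolynomial Pool.Agent.J6H31.ST

variable {G : Type} [Group G] {F : Type} [Field F] {n m : ℕ}
variable [TopologicalSpace G] [IsTopologicalGroup G] [TopologicalSpace F] [IsTopologicalRing F]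
  [T1Space F]

theorem zarc (ρ : G →* GL (Fin n) F) (hρ : Continuous ρ) (η : G →* GL (Fin m) F)
    (hη : Continuous η) (G₀ : Subgroup G) (hG₀n : G₀.Normal) (hG₀o : IsOpen (G₀ : Set G))
    (hconn : ∀ H : Subgroup G, IsOpen (H : Set G) →
      ∀ f : MvPolynomial ((Fin n × Fin n) ⊕ (Fin m × Fin m)) F,
        (∀ h ∈ H, h ∈ G₀ → eval (evg ρ η h) f = 0) → ∀ g ∈ G₀, eval (evg ρ η g) f = 0)
    (pos : Set G → Prop) (h1 : ∀ X Y : Set G, X ⊆ Y → pos X → pos Y)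
    (h2 : ∀ (ι : Type) (s : Finset ι) (X : ι → Set G), pos (⋃ i ∈ s, X i) → ∃ i ∈ s, pos (X i))
    (h3 : ∀ X : Set G, IsClosed X → pos X → ∀ H : Subgroup G,
      (∀ y, y ∉ H → ¬ pos {g | g ∈ X ∧ y * g ∈ X}) → H.FiniteIndex)
    (h4 : ∀ (X : Set G) (y : G), pos X → pos {g | y * g ∈ X})
    (f : MvPolynomial ((Fin n × Fin n) ⊕ (Fin m × Fin m)) F) (g₁ : G)
    (hf : pos {g | g₁⁻¹ * g ∈ G₀ ∧ eval (evg ρ η g⁻¹) f = 0}) :
    ∀ g, g₁⁻¹ * g ∈ G₀ → eval (evg ρ η g⁻¹) f = 0 := by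
  let ZZ : Ideal (MvPolynomial ((Fin n × Fin n) ⊕ (Fin m × Fin m)) F) → Set G :=
    fun I => {g | g₁⁻¹ * g ∈ G₀ ∧ g ∈ Z ρ η I}
  have hempty : ¬ pos ∅ := by
    intro h
    have h5 : pos (⋃ i ∈ (∅ : Finset ℕ), (fun _ : ℕ => (∅ : Set G)) i) :=
      h1 _ _ (Set.empty_subset _) h
    obtain ⟨i, hi, -⟩ := h2 ℕ ∅ _ h5
    simp at hi
  have hcosetc : IsClosed {g : G | g₁⁻¹ * g ∈ G₀} :=
    (G₀.isClosed_of_isOpen hG₀o).preimage (continuous_const.mul continuous_id)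
  have hmv : ∀ y ∈ G₀, ∀ g, g₁⁻¹ * g ∈ G₀ ↔ g₁⁻¹ * (y * g) ∈ G₀ := by
    intro y hy g
    have h5 : g₁⁻¹ * (y * g) = (g₁⁻¹ * y * g₁⁻¹⁻¹) * (g₁⁻¹ * g) := by group
    rw [h5]
    exact ((G₀.mul_mem_cancel_left (hG₀n.conj_mem y hy g₁⁻¹))).symm
  -- the maximal ideal
  have hne : ({I | f ∈ I ∧ pos (ZZ I)} :
      Set (Ideal (MvPolynomial ((Fin n × Fin n) ⊕ (Fin m × Fin m)) F))).Nonempty := by
    refine ⟨Ideal.span {f}, Ideal.mem_span_singleton_self f, h1 _ _ ?_ hf⟩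
    rintro g ⟨hg0, hg⟩
    refine ⟨hg0, ?_⟩
    rw [mem_Z_iff, Ideal.span_le]
    intro p hp
    rw [Set.mem_singleton_iff] at hp
    subst hp
    exact (RingHom.mem_ker).2 hg
  obtain ⟨I, ⟨hfI, hpI⟩, hmax⟩ := (wellFounded_gt (α :=
    Ideal (MvPolynomial ((Fin n × Fin n) ⊕ (Fin m × Fin m)) F))).has_min _ hne
  -- claim A
  have hA : ∀ y : G, pos {g | g ∈ ZZ I ∧ y * g ∈ ZZ I} → ∀ g ∈ Z ρ η I, y * g ∈ Z ρ η I := by
    intro y hy
    have hJ : ¬ (I < I ⊔ Ideal.span ((R ρ η y⁻¹) '' (I : Set _))) := by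
      refine hmax _ ⟨Ideal.mem_sup_left hfI, h1 _ _ ?_ hy⟩
      rintro g ⟨⟨hg0, hg1⟩, -, hg2⟩
      refine ⟨hg0, ?_⟩
      rw [mem_Z_iff, sup_le_iff, Ideal.span_le]
      refine ⟨(mem_Z_iff ρ η I g).1 hg1, ?_⟩
      rintro q ⟨p, hp, rfl⟩
      refine (RingHom.mem_ker).2 ?_
      rw [eval_R, ← mul_inv_rev]
      exact hg2 p hp
    have hle : Ideal.span ((R ρ η y⁻¹) '' (I : Set _)) ≤ I := by
      by_contra hcon
      exact hJ (lt_of_le_not_ge le_sup_left fun h => hcon (le_sup_right.trans h))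
    intro g hg p hp
    have h5 := hg _ (hle (Ideal.subset_span ⟨p, hp, rfl⟩))
    rwa [eval_R, ← mul_inv_rev] at h5
  -- the stabilizer
  let H : Subgroup G :=
    { carrier := {y | ∀ g, g ∈ ZZ I ↔ y * g ∈ ZZ I}
      one_mem' := fun g => by rw [one_mul]
      mul_mem' := fun {a b} ha hb g => by rw [mul_assoc]; exact (hb g).trans (ha (b * g))
      inv_mem' := fun {a} ha g => by
        have := ha (a⁻¹ * g)
        rw [mul_inv_cancel_left] at this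
        exact this.symm }
  have hH : ∀ y, y ∈ H ↔ ∀ g, g ∈ ZZ I ↔ y * g ∈ ZZ I := fun y => Iff.rfl
  have hZc : IsClosed (ZZ I) := hcosetc.inter (Z_closed ρ hρ η hη I)
  have hfin : H.FiniteIndex := by
    refine h3 _ hZc hpI H fun y hy hpy => hy ?_
    have hyG : y ∈ G₀ := by
      by_contra hcon
      apply hempty
      refine h1 _ _ ?_ hpy
      rintro g ⟨⟨hg1, -⟩, hg2, -⟩
      exfalso
      apply hcon
      have h5 := G₀.mul_mem hg2 (G₀.inv_mem hg1)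
      have h6 : g₁⁻¹ * (y * g) * (g₁⁻¹ * g)⁻¹ = g₁⁻¹ * y * g₁⁻¹⁻¹ := by group
      rw [h6] at h5
      have h7 := hG₀n.conj_mem _ h5 g₁
      have h8 : g₁ * (g₁⁻¹ * y * g₁⁻¹⁻¹) * g₁⁻¹ = y := by group
      rwa [h8] at h7
    have hpy' : pos {g | g ∈ ZZ I ∧ y⁻¹ * g ∈ ZZ I} := by
      refine h1 _ _ ?_ (h4 _ y⁻¹ hpy)
      rintro g ⟨hg1, hg2⟩
      rw [mul_inv_cancel_left] at hg2
      exact ⟨hg2, hg1⟩
    rw [hH]
    intro g
    constructor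
    · rintro ⟨hg0, hg⟩
      exact ⟨(hmv y hyG g).1 hg0, hA y hpy g hg⟩
    · rintro ⟨hg0, hg⟩
      refine ⟨(hmv y hyG g).2 hg0, ?_⟩
      have := hA y⁻¹ hpy' _ hg
      rwa [inv_mul_cancel_left] at this
  have hcl : IsClosed (H : Set G) := by
    have h5 : (H : Set G) = (⋂ g ∈ ZZ I, {y | y * g ∈ ZZ I}) ∩
        ⋂ g ∈ ZZ I, {y | y⁻¹ * g ∈ ZZ I} := by
      ext y
      simp only [Set.mem_inter_iff, Set.mem_iInter, SetLike.mem_coe]
      constructor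
      · intro hy
        exact ⟨fun g hg => (hy g).1 hg, fun g hg => ((inv_mem hy) g).1 hg⟩
      · rintro ⟨ha, hb⟩ g
        refine ⟨fun hg => ha g hg, fun hg => ?_⟩
        have h9 : y⁻¹ * (y * g) ∈ ZZ I := hb _ hg
        rwa [inv_mul_cancel_left] at h9
    rw [h5]
    refine IsClosed.inter (isClosed_biInter fun g _ => ?_) (isClosed_biInter fun g _ => ?_)
    · exact hZc.preimage (continuous_mul_const g)
    · exact hZc.preimage ((continuous_mul_const g).comp continuous_inv)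
  have hop : IsOpen (H : Set G) := H.isOpen_of_isClosed_of_finiteIndex hcl
  have hZne : (ZZ I).Nonempty := by
    by_contra hcon
    rw [Set.not_nonempty_iff_eq_empty] at hcon
    rw [hcon] at hpI
    exact hempty hpI
  obtain ⟨y, hy⟩ := hZne
  have h6 : ∀ g ∈ G₀, eval (evg ρ η g) (L ρ η y⁻¹ f) = 0 := by
    refine hconn H hop _ fun x hx _ => ?_
    rw [eval_L]
    have h7 : x⁻¹ * y ∈ ZZ I := ((hH _).1 (inv_mem hx) y).1 hy
    have h8 := h7.2 f hfI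
    rwa [mul_inv_rev, inv_inv] at h8
  intro g hg
  have h10 : y * g⁻¹ ∈ G₀ := by
    have h11 : y * g⁻¹ = g₁ * ((g₁⁻¹ * y) * (g₁⁻¹ * g)⁻¹) * g₁⁻¹ := by group
    rw [h11]
    exact hG₀n.conj_mem _ (G₀.mul_mem hy.1 (G₀.inv_mem hg)) g₁
  have h9 := h6 _ h10
  rwa [eval_L, inv_mul_cancel_left] at h9

theorem zarC : S_ZarC := by
  intro K _ _ ℓ _ n m ρ hρ η hη G₀ hn ho hconn pos h1 h2 h3 h4 f g₁ hf
  exact zarc ρ hρ η hη G₀ hn ho hconn pos h1 h2 h3 h4 f g₁ hf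

end Pool.Agent.J6H29.ST
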